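import Pool.Agent.helper36.BP.SpecD

/-!
# bp:THF
-/

set_option autoImplicit false

open Finset
open Pool.Agent.FI Pool.Agent.HK
open Pool.Agent.CH (nit rgh ll2)
open Pool.Agent.SK (tr0 Th)

noncomputable section

namespace Pool.Agent.BP

open MeasureTheory FourierTransform

theorem THF_four (δ ξ : ℝ) : 𝓕 (fun x : ℝ => ((tr0 0 δ x : ℝ) : ℂ)) ξ = Th δ (2 * Real.pi * ξ) := by
  rw [Real.fourier_real_eq_integral_exp_smul]
  unfold Th
  refine integral_congr_ae (Filter.Eventually.of_forall fun x => ?_)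
  show Complex.exp (↑(-2 * Real.pi * x * ξ) * Complex.I) • ((tr0 0 δ x : ℝ) : ℂ) =
    ((tr0 0 δ x : ℝ) : ℂ) * Complex.exp (((-(2 * Real.pi * ξ * x) : ℝ) : ℂ) * Complex.I)
  rw [smul_eq_mul, mul_comm, show -2 * Real.pi * x * ξ = -(2 * Real.pi * ξ * x) by ring]

theorem THF_int (hTHB : SK.THB_stmt) (δ : ℝ) (hδ : 0 < δ) : Integrable (Th δ) := by
  obtain ⟨h1, h2, _, h4⟩ := hTHB δ hδ
  have hI : Integrable (fun t : ℝ => (δ + 4 / δ) * (1 + t ^ 2)⁻¹) := integrable_inv_one_add_sq.const_mul _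
  refine Integrable.mono' hI h4.aestronglyMeasurable (Filter.Eventually.of_forall fun t => ?_)
  have hp : 0 < 1 + t ^ 2 := by positivity
  rw [← div_eq_mul_inv, le_div_iff₀ hp, mul_add, mul_one]
  refine add_le_add (h1 t) ?_
  rcases eq_or_ne t 0 with rfl | ht
  · rw [zero_pow two_ne_zero, mul_zero]
    positivity
  · have h5 := mul_le_mul_of_nonneg_right (h2 t ht) (by positivity : 0 ≤ t ^ 2)
    refine h5.trans (le_of_eq ?_)
    field_simp

theorem THF (hTRB : SK.TRB_stmt) (hTHB : SK.THB_stmt) : THF_stmt := by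
  intro δ hδ
  have hint := THF_int hTHB δ hδ
  refine ⟨hint, fun v x => ?_⟩
  obtain ⟨_, _, _, hI, _⟩ := hTRB 0 δ hδ
  have hcont : Continuous (fun x : ℝ => ((tr0 0 δ x : ℝ) : ℂ)) := by
    unfold tr0
    fun_prop
  have hpi : (0 : ℝ) < 2 * Real.pi := by positivity
  have hF : 𝓕 (fun x : ℝ => ((tr0 0 δ x : ℝ) : ℂ)) = fun ξ => Th δ (2 * Real.pi * ξ) :=
    funext fun ξ => THF_four δ ξ
  have h := hcont.fourierInv_fourier_eq hI.ofReal (by
    rw [hF]
    exact hint.comp_mul_left' hpi.ne')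
  rw [hF] at h
  have h2 := congrFun h (x - v)
  rw [Real.fourierInv_eq'] at h2
  have h3 : ((tr0 0 δ (x - v) : ℝ) : ℂ) = ((tr0 v δ x : ℝ) : ℂ) := by
    unfold tr0
    rw [sub_zero]
  rw [h3] at h2
  rw [← h2]
  have h4 := Measure.integral_comp_mul_left
    (fun t : ℝ => Th δ t * Complex.exp (((t * (x - v) : ℝ) : ℂ) * Complex.I)) (2 * Real.pi)
  rw [abs_of_pos (inv_pos.2 hpi), Complex.real_smul] at h4
  have h5 : (1 : ℂ) / (2 * (Real.pi : ℂ)) = (((2 * Real.pi)⁻¹ : ℝ) : ℂ) := by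
    push_cast
    rw [one_div]
  rw [h5, ← h4]
  refine integral_congr_ae (Filter.Eventually.of_forall fun ξ => ?_)
  show Complex.exp _ • Th δ (2 * Real.pi * ξ) =
    Th δ (2 * Real.pi * ξ) * Complex.exp (((2 * Real.pi * ξ * (x - v) : ℝ) : ℂ) * Complex.I)
  rw [smul_eq_mul, mul_comm]
  refine congrArg (fun z => Th δ (2 * Real.pi * ξ) * Complex.exp z) ?_
  simp
  ring

end Pool.Agent.BP
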