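import Pool.Agent.helper36.BP.SpecR

/-!
# bp:RGB
-/

set_option autoImplicit false

open Finset
open Pool.Agent.FI Pool.Agent.HK
open Pool.Agent.CH (nit rgh ll2)
open Pool.Agent.SK (tr0 Th)

noncomputable section

namespace Pool.Agent.BP

theorem RGB_hyp (F G : ℕ → ℂ) (N : ℕ) :
    ∑ n ∈ Ioc 0 N, cv F G n = ∑ a ∈ Ioc 0 N, F a * ∑ b ∈ Ioc 0 (N / a), G b := by
  let f : ArithmeticFunction ℂ := ⟨fun n => if n = 0 then 0 else F n, by simp⟩
  let g : ArithmeticFunction ℂ := ⟨fun n => if n = 0 then 0 else G n, by simp⟩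
  have h := ArithmeticFunction.sum_Ioc_mul_eq_sum_sum f g N
  have e1 : ∑ n ∈ Ioc 0 N, (f * g) n = ∑ n ∈ Ioc 0 N, cv F G n := by
    refine sum_congr rfl fun n hn => ?_
    rw [ArithmeticFunction.mul_apply]
    unfold cv
    refine sum_congr rfl fun d hd => ?_
    obtain ⟨hd1, hd2⟩ := Nat.mem_divisorsAntidiagonal.1 hd
    have h1 : d.1 ≠ 0 := fun h0 => hd2 (by rw [← hd1, h0, zero_mul])
    have h2 : d.2 ≠ 0 := fun h0 => hd2 (by rw [← hd1, h0, mul_zero])
    show (if d.1 = 0 then 0 else F d.1) * (if d.2 = 0 then 0 else G d.2) = F d.1 * G d.2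
    rw [if_neg h1, if_neg h2]
  rw [e1] at h
  rw [h]
  refine sum_congr rfl fun a ha => ?_
  have h1 : a ≠ 0 := (mem_Ioc.1 ha).1.ne'
  show (if a = 0 then 0 else F a) * ∑ b ∈ Ioc 0 (N / a), (if b = 0 then 0 else G b) = _
  rw [if_neg h1]
  refine congrArg (fun z => F a * z) (sum_congr rfl fun b hb => ?_)
  rw [if_neg (mem_Ioc.1 hb).1.ne']

theorem RGB_nit_mul (t : ℝ) (d m : ℕ) (hd : d ≠ 0) (hm : m ≠ 0) :
    nit t ((d * m : ℕ) : ℝ) = nit t d * nit t m := by
  unfold nit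
  have hd0 : (d : ℝ) ≠ 0 := by exact_mod_cast hd
  have hm0 : (m : ℝ) ≠ 0 := by exact_mod_cast hm
  rw [← Complex.exp_add]
  congr 1
  push_cast
  have h : Real.log ((d : ℝ) * m) = Real.log d + Real.log m := Real.log_mul hd0 hm0
  rw [show (((d : ℝ) * (m : ℝ) : ℝ)) = ((d : ℝ) * m) from rfl, h]
  push_cast
  ring

theorem RGB_nit_norm (t x : ℝ) : ‖nit t x‖ = 1 := by
  unfold nit
  exact Complex.norm_exp_ofReal_mul_I _

theorem RGB_twist (F G : ℕ → ℂ) (τ : ℝ) (n : ℕ) :
    cv F G n * nit τ n = cv (fun a => F a * nit τ a) (fun b => G b * nit τ b) n := by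
  unfold cv
  rw [sum_mul]
  refine sum_congr rfl fun d hd => ?_
  obtain ⟨hd1, hd2⟩ := Nat.mem_divisorsAntidiagonal.1 hd
  have h1 : d.1 ≠ 0 := fun h0 => hd2 (by rw [← hd1, h0, zero_mul])
  have h2 : d.2 ≠ 0 := fun h0 => hd2 (by rw [← hd1, h0, mul_zero])
  rw [← hd1, RGB_nit_mul τ d.1 d.2 h1 h2]
  ring

theorem RGB_cv_norm {g h : ℕ → ℂ} (hg : CM g) (hh : CM h) (n : ℕ) :
    ‖cv g h n‖ ≤ (#n.divisors : ℝ) := by
  unfold cv
  refine (norm_sum_le _ _).trans ?_
  have h1 : ∑ d ∈ n.divisorsAntidiagonal, ‖g d.1 * h d.2‖ ≤ ∑ d ∈ n.divisorsAntidiagonal, (1 : ℝ) := by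
    refine sum_le_sum fun d _ => ?_
    rw [norm_mul]
    exact mul_le_one₀ (hg.2.2.2 _) (norm_nonneg _) (hh.2.2.2 _)
  refine h1.trans (le_of_eq ?_)
  have h2 := Nat.sum_divisorsAntidiagonal (n := n) (fun _ _ => (1 : ℝ))
  rw [h2]
  simp

theorem RGB_tau (N : ℕ) (hN : 1 ≤ N) :
    ∑ n ∈ Ioc 0 N, (#n.divisors : ℝ) ≤ N * (1 + Real.log N) := by
  have h1 := ArithmeticFunction.sum_Ioc_sigma0_eq_sum_div N
  have h2 : ∑ n ∈ Ioc 0 N, (#n.divisors : ℝ) = ((∑ n ∈ Ioc 0 N, (N / n) : ℕ) : ℝ) := by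
    rw [← h1]
    push_cast
    refine sum_congr rfl fun n _ => ?_
    rw [ArithmeticFunction.sigma_zero_apply]
  rw [h2]
  push_cast
  have h3 : ∑ n ∈ Ioc 0 N, ((N / n : ℕ) : ℝ) ≤ ∑ n ∈ Ioc 0 N, (N : ℝ) * ((n : ℝ)⁻¹) := by
    refine sum_le_sum fun n _ => ?_
    rw [← div_eq_mul_inv]
    exact Nat.cast_div_le
  refine h3.trans ?_
  rw [← mul_sum]
  refine mul_le_mul_of_nonneg_left ?_ (by positivity)
  have h4 := harmonic_le_one_add_log N
  have h5 : ((harmonic N : ℚ) : ℝ) = ∑ n ∈ Ioc 0 N, ((n : ℝ)⁻¹) := by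
    rw [harmonic_eq_sum_Icc]
    push_cast
    refine sum_congr ?_ fun _ _ => rfl
    ext n
    simp only [mem_Icc, mem_Ioc]
    omega
  rw [← h5]
  exact h4

theorem RGB (hHSF : HSF_stmt) : RGB_stmt := by
  obtain ⟨hconv, C₀, hC₀, hsm⟩ := hHSF
  intro A
  refine ⟨C₀ * 768, Real.exp 1, by positivity, ?_⟩
  intro x hx R g h hg hh hH τ hτ u hu
  have hx0 : 0 < x := (Real.exp_pos 1).trans_le hx
  set L := Real.log x with hL
  have hL1 : 1 ≤ L := (Real.le_log_iff_exp_le hx0).2 hx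
  set D := CH.dl x with hD
  have hD1 : 1 ≤ D := Real.one_le_rpow hL1 (by norm_num)
  have hDL : D ≤ L := by
    calc D = L ^ (19 / 20 : ℝ) := rfl
      _ ≤ L ^ (1 : ℝ) := Real.rpow_le_rpow_of_exponent_le hL1 (by norm_num)
      _ = L := Real.rpow_one _
  have hD0 : 0 < D := by linarith
  have hyl : Real.log (yx x) = D := by
    unfold yx
    rw [Real.log_exp]
  have hy2 : 2 ≤ yx x := by
    unfold yx
    have h1 := Real.add_one_le_exp D
    linarith
  have hy0 : 0 < yx x := by linarith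
  have huR : (1 : ℝ) ≤ u := by exact_mod_cast hu
  have hu0 : (0 : ℝ) < u := by linarith
  -- the expansion
  have hexp : ∑ n ∈ Ioc 0 u, cv (rg (yx x) g) (rg (yx x) h) n * nit τ n =
      ∑ e ∈ Ioc 0 u, (hs (yx x) g h e * nit τ e) * ∑ m ∈ Ioc 0 (u / e), cv g h m * nit τ m := by
    rw [← RGB_hyp (fun e => hs (yx x) g h e * nit τ e) (fun m => cv g h m * nit τ m) u]
    refine sum_congr rfl fun n hn => ?_
    rw [(hconv (yx x) g h hg hh n (mem_Ioc.1 hn).1).1, RGB_twist]
  rw [hexp]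
  set E : ℝ := Real.exp (-(Real.log u / D)) with hE
  have hE0 : 0 < E := Real.exp_pos _
  set W : ℝ := 1 / L ^ (A + 6) + 6 * (1 + D) * E with hW
  have hW0 : 0 ≤ W := by positivity
  have hterm : ∀ e ∈ Ioc 0 u, ‖(hs (yx x) g h e * nit τ e) * ∑ m ∈ Ioc 0 (u / e), cv g h m * nit τ m‖ ≤
      u * W * (‖hs (yx x) g h e‖ * (e : ℝ) ^ (1 / Real.log (yx x)) / e) := by
    intro e he
    obtain ⟨he0, heu⟩ := mem_Ioc.1 he
    have heR : (1 : ℝ) ≤ e := by exact_mod_cast he0
    have heR0 : (0 : ℝ) < e := by linarith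
    rw [hyl]
    have hpe : 1 ≤ (e : ℝ) ^ (1 / D) := Real.one_le_rpow heR (by positivity)
    have hM1 : 1 ≤ u / e := (Nat.one_le_div_iff he0).2 heu
    have hMle : ((u / e : ℕ) : ℝ) ≤ u / e := Nat.cast_div_le
    have hS : ‖∑ m ∈ Ioc 0 (u / e), cv g h m * nit τ m‖ ≤ (u / e) * (W * (e : ℝ) ^ (1 / D)) := by
      by_cases hc : yx x ≤ ((u / e : ℕ) : ℝ)
      · have h1 := hH τ hτ (u / e) hc
        refine h1.trans ?_
        calc ((u / e : ℕ) : ℝ) / L ^ (A + 6) ≤ (u / e) / L ^ (A + 6) := by gcongr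
          _ = (u / e) * (1 / L ^ (A + 6)) := by ring
          _ ≤ (u / e) * (W * (e : ℝ) ^ (1 / D)) := by
            refine mul_le_mul_of_nonneg_left ?_ (by positivity)
            have h2 : 1 / L ^ (A + 6) ≤ W := by
              rw [hW]
              have : 0 ≤ 6 * (1 + D) * E := by positivity
              linarith
            calc 1 / L ^ (A + 6) ≤ W := h2
              _ = W * 1 := (mul_one _).symm
              _ ≤ W * (e : ℝ) ^ (1 / D) := mul_le_mul_of_nonneg_left hpe hW0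
      · rw [not_le] at hc
        have hMR : (1 : ℝ) ≤ ((u / e : ℕ) : ℝ) := by exact_mod_cast hM1
        have h1 : ‖∑ m ∈ Ioc 0 (u / e), cv g h m * nit τ m‖ ≤
            ((u / e : ℕ) : ℝ) * (1 + Real.log ((u / e : ℕ) : ℝ)) := by
          refine (norm_sum_le _ _).trans ((sum_le_sum fun m _ => ?_).trans (RGB_tau (u / e) hM1))
          rw [norm_mul, RGB_nit_norm, mul_one]
          exact RGB_cv_norm hg hh m
        have h2 : Real.log ((u / e : ℕ) : ℝ) ≤ D := by
          rw [← hyl]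
          exact Real.log_le_log (by linarith) hc.le
        have h3 : (u : ℝ) < 2 * yx x * e := by
          have h4 : (u : ℝ) < (((u / e : ℕ) : ℝ) + 1) * e := by
            have h5 : u < (u / e + 1) * e := by
              have := Nat.lt_mul_div_succ u he0
              rw [mul_comm]
              exact this
            exact_mod_cast h5
          have h6 : (((u / e : ℕ) : ℝ) + 1) ≤ 2 * yx x := by linarith
          exact h4.trans_le (mul_le_mul_of_nonneg_right h6 heR0.le)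
        have h4 : 1 ≤ 6 * E * (e : ℝ) ^ (1 / D) := by
          have h5 : (u : ℝ) ^ (1 / D) ≤ (2 * yx x * e) ^ (1 / D) :=
            Real.rpow_le_rpow hu0.le h3.le (by positivity)
          rw [Real.mul_rpow (by positivity) heR0.le, Real.mul_rpow (by norm_num) hy0.le] at h5
          have h6 : (2 : ℝ) ^ (1 / D) ≤ 2 := by
            calc (2 : ℝ) ^ (1 / D) ≤ 2 ^ (1 : ℝ) := by
                  apply Real.rpow_le_rpow_of_exponent_le (by norm_num)
                  rw [div_le_one hD0]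
                  exact hD1
              _ = 2 := Real.rpow_one _
          have h7 : (yx x) ^ (1 / D) = Real.exp 1 := by
            unfold yx
            rw [← Real.exp_mul, ← hD]
            congr 1
            field_simp
          have h8 : (u : ℝ) ^ (1 / D) = Real.exp (Real.log u / D) := by
            rw [Real.rpow_def_of_pos hu0]
            congr 1
            ring
          have h9 : E * Real.exp (Real.log u / D) = 1 := by
            rw [hE, ← Real.exp_add, neg_add_cancel, Real.exp_zero]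
          have h10 : Real.exp 1 ≤ 3 := by
            have := Real.exp_one_lt_d9
            linarith
          rw [h7, h8] at h5
          have h11 : (2 : ℝ) ^ (1 / D) * Real.exp 1 * (e : ℝ) ^ (1 / D) ≤ 6 * (e : ℝ) ^ (1 / D) := by
            have : (2 : ℝ) ^ (1 / D) * Real.exp 1 ≤ 2 * 3 :=
              mul_le_mul h6 h10 (Real.exp_pos 1).le (by norm_num)
            nlinarith
          calc (1 : ℝ) = E * Real.exp (Real.log u / D) := h9.symm
            _ ≤ E * (6 * (e : ℝ) ^ (1 / D)) := mul_le_mul_of_nonneg_left (h5.trans h11) hE0.le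
            _ = 6 * E * (e : ℝ) ^ (1 / D) := by ring
        calc ‖∑ m ∈ Ioc 0 (u / e), cv g h m * nit τ m‖
            ≤ ((u / e : ℕ) : ℝ) * (1 + Real.log ((u / e : ℕ) : ℝ)) := h1
          _ ≤ (u / e) * (1 + D) := by
            apply mul_le_mul hMle (by linarith) _ (by positivity)
            have := Real.log_nonneg hMR
            linarith
          _ = (u / e) * ((1 + D) * 1) := by ring
          _ ≤ (u / e) * ((1 + D) * (6 * E * (e : ℝ) ^ (1 / D))) := by gcongr
          _ ≤ (u / e) * (W * (e : ℝ) ^ (1 / D)) := by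
            refine mul_le_mul_of_nonneg_left ?_ (by positivity)
            rw [hW]
            have h5 : 0 ≤ 1 / L ^ (A + 6) * (e : ℝ) ^ (1 / D) := by positivity
            nlinarith
    calc ‖(hs (yx x) g h e * nit τ e) * ∑ m ∈ Ioc 0 (u / e), cv g h m * nit τ m‖
        = ‖hs (yx x) g h e‖ * ‖∑ m ∈ Ioc 0 (u / e), cv g h m * nit τ m‖ := by
          rw [norm_mul, norm_mul, RGB_nit_norm, mul_one]
      _ ≤ ‖hs (yx x) g h e‖ * ((u / e) * (W * (e : ℝ) ^ (1 / D))) :=
          mul_le_mul_of_nonneg_left hS (norm_nonneg _)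
      _ = u * W * (‖hs (yx x) g h e‖ * (e : ℝ) ^ (1 / D) / e) := by
          field_simp
  refine (norm_sum_le_of_le _ hterm).trans ?_
  rw [← mul_sum]
  have h1 := hsm (yx x) g h hy2 hg hh u
  rw [hyl] at h1 ⊢
  have h2 : (1 + D) ^ 6 ≤ 64 * L ^ 6 := by
    calc (1 + D) ^ 6 ≤ (2 * L) ^ 6 := by
          apply pow_le_pow_left₀ (by positivity)
          linarith
      _ = 64 * L ^ 6 := by ring
  have h3 : (1 + D) ^ 7 ≤ 128 * L ^ 8 := by
    calc (1 + D) ^ 7 ≤ (2 * L) ^ 7 := by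
          apply pow_le_pow_left₀ (by positivity)
          linarith
      _ = 128 * L ^ 7 := by ring
      _ ≤ 128 * L ^ 8 := by
        have : L ^ 7 ≤ L ^ 8 := pow_le_pow_right₀ hL1 (by norm_num)
        linarith
  calc u * W * ∑ e ∈ Ioc 0 u, ‖hs (yx x) g h e‖ * (e : ℝ) ^ (1 / D) / e
      ≤ u * W * (C₀ * (1 + D) ^ 6) := mul_le_mul_of_nonneg_left h1 (by positivity)
    _ = C₀ * u * ((1 + D) ^ 6 * (1 / L ^ (A + 6)) + 6 * (1 + D) ^ 7 * E) := by
      rw [hW]
      ring
    _ ≤ C₀ * u * (64 * L ^ 6 * (1 / L ^ (A + 6)) + 6 * (128 * L ^ 8) * E) := by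
      gcongr
    _ = C₀ * u * (64 * (1 / L ^ A) + 768 * (L ^ 8 * E)) := by
      rw [pow_add]
      have hLp : L ^ 6 ≠ 0 := by positivity
      have hLA : L ^ A ≠ 0 := by positivity
      field_simp
      ring
    _ ≤ C₀ * 768 * u * (L ^ 8 * E + 1 / L ^ A) := by
      have h4 : 0 ≤ C₀ * u * (1 / L ^ A) := by positivity
      nlinarith

end Pool.Agent.BP
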