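import Pool.Agent.helper36.BP.SpecR
import Pool.Agent.helper49.HK.TFO

/-!
# bp:FZB
-/

set_option autoImplicit false

open Finset
open Pool.Agent.FI Pool.Agent.HK
open Pool.Agent.CH (nit rgh ll2)
open Pool.Agent.SK (tr0 Th)

noncomputable section

namespace Pool.Agent.BP

theorem FZB_rgh_prime (y : ℝ) {p : ℕ} (hp : p.Prime) : rgh y p ↔ y < p := by
  constructor
  · intro h
    exact h.2 p hp dvd_rfl
  · intro h
    refine ⟨hp.ne_zero, fun q hq hqp => ?_⟩
    rw [(Nat.prime_dvd_prime_iff_eq hq hp).1 hqp]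
    exact h

theorem FZB_rgh_mul (y : ℝ) (m n : ℕ) : rgh y (m * n) ↔ rgh y m ∧ rgh y n := by
  constructor
  · intro h
    have h0 := mul_ne_zero_iff.1 h.1
    exact ⟨⟨h0.1, fun p hp hpm => h.2 p hp (Dvd.dvd.mul_right hpm n)⟩,
      ⟨h0.2, fun p hp hpn => h.2 p hp (Dvd.dvd.mul_left hpn m)⟩⟩
  · rintro ⟨h1, h2⟩
    refine ⟨mul_ne_zero h1.1 h2.1, fun p hp hpn => ?_⟩
    rcases (Nat.Prime.dvd_mul hp).1 hpn with h3 | h3
    · exact h1.2 p hp h3
    · exact h2.2 p hp h3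

theorem FZB_CM (y : ℝ) {g : ℕ → ℂ} (hg : CM g) : CM (rg y g) := by
  refine ⟨?_, ?_, ?_, ?_⟩
  · unfold rg
    rw [if_neg]
    intro h
    exact h.1 rfl
  · unfold rg
    rw [if_pos]
    · exact hg.2.1
    · refine ⟨one_ne_zero, fun p hp h => ?_⟩
      exact absurd (Nat.dvd_one.1 h) hp.one_lt.ne'
  · intro m n
    unfold rg
    by_cases h1 : rgh y m
    · by_cases h2 : rgh y n
      · rw [if_pos ((FZB_rgh_mul y m n).2 ⟨h1, h2⟩), if_pos h1, if_pos h2, hg.2.2.1]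
      · rw [if_neg (fun h => h2 ((FZB_rgh_mul y m n).1 h).2), if_neg h2, mul_zero]
    · rw [if_neg (fun h => h1 ((FZB_rgh_mul y m n).1 h).1), if_neg h1, zero_mul]
  · intro n
    unfold rg
    split_ifs
    · exact hg.2.2.2 n
    · rw [norm_zero]; exact zero_le_one

theorem FZB_log {w : ℂ} (hw : ‖w‖ ≤ 1 / 2) : (-Complex.log (1 - w)).re ≤ w.re + ‖w‖ ^ 2 := by
  have h1 := Complex.norm_log_one_sub_inv_sub_self_le (z := w) (by linarith)
  have hne : Complex.log (1 - w)⁻¹ = -Complex.log (1 - w) := by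
    rw [Complex.log_inv]
    have hre : 0 < (1 - w).re := by
      have := Complex.re_le_norm w
      rw [Complex.sub_re, Complex.one_re]
      linarith
    have := Complex.abs_arg_lt_pi_div_two_iff.2 (Or.inl hre)
    have hpi := Real.pi_pos
    intro h
    rw [h, abs_of_pos hpi] at this
    linarith
  rw [hne] at h1
  have h2 := (Complex.re_le_norm (-Complex.log (1 - w) - w)).trans h1
  rw [Complex.sub_re] at h2
  have h3 : (1 - ‖w‖)⁻¹ ≤ 2 := by
    rw [inv_le_comm₀ (by linarith) (by norm_num)]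
    linarith
  have h4 : ‖w‖ ^ 2 * (1 - ‖w‖)⁻¹ / 2 ≤ ‖w‖ ^ 2 := by
    have : 0 ≤ ‖w‖ ^ 2 := by positivity
    nlinarith
  linarith

/-- a block -/
theorem FZB_blk {C : ℝ} (hC : 0 < C) (hG : ∀ (u : ℕ) (v : ℝ), 2 ≤ u → (u : ℝ) ≤ v →
    |∑ l ∈ GD.Qs u v, 2 / (l : ℝ) - (Real.log (Real.log v) - Real.log (Real.log u))| ≤ C / Real.log u)
    (t v : ℝ) (ht : 2 ≤ t) (htv : t ≤ v) (F : Finset ℕ)
    (hF : ∀ p ∈ F, p.Prime ∧ (p % 8 = 1 ∨ p % 8 = 7) ∧ t < p ∧ (p : ℝ) ≤ v) :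
    ∑ p ∈ F, 2 / (p : ℝ) ≤ Real.log 2 + Real.log (Real.log v / Real.log t) + 4 * C := by
  have ht0 : 0 < t := by linarith
  have hu2 : 2 ≤ ⌊t⌋₊ := Nat.le_floor (by exact_mod_cast ht)
  have hu2R : (2 : ℝ) ≤ ⌊t⌋₊ := by exact_mod_cast hu2
  have hut : (⌊t⌋₊ : ℝ) ≤ t := Nat.floor_le ht0.le
  have htu : t < ⌊t⌋₊ + 1 := Nat.lt_floor_add_one t
  have h1 := hG ⌊t⌋₊ v hu2 (hut.trans htv)
  have h2 := (abs_le.1 h1).2
  have hsub : F ⊆ GD.Qs ⌊t⌋₊ v := by
    intro p hp
    obtain ⟨h3, h4, h5, h6⟩ := hF p hp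
    unfold GD.Qs
    rw [mem_filter, mem_Icc]
    exact ⟨⟨h3.pos, Nat.le_floor h6⟩, h3, (Nat.floor_lt ht0.le).2 h5, h4⟩
  have h3 : ∑ p ∈ F, 2 / (p : ℝ) ≤ ∑ l ∈ GD.Qs ⌊t⌋₊ v, 2 / (l : ℝ) :=
    sum_le_sum_of_subset_of_nonneg hsub fun _ _ _ => by positivity
  have hl2 : (1 : ℝ) / 2 ≤ Real.log 2 := by
    have := Real.log_two_gt_d9
    linarith
  have hlt : Real.log 2 ≤ Real.log t := Real.log_le_log (by norm_num) ht
  have hlt0 : 0 < Real.log t := by linarith
  have hlv0 : 0 < Real.log v := hlt0.trans_le (Real.log_le_log ht0 htv)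
  have hlu : Real.log t / 2 ≤ Real.log (⌊t⌋₊ : ℝ) := by
    have h4 : t ≤ (⌊t⌋₊ : ℝ) ^ 2 := by nlinarith
    have h5 := Real.log_le_log ht0 h4
    rw [Real.log_pow] at h5
    push_cast at h5
    linarith
  have hlu0 : 0 < Real.log (⌊t⌋₊ : ℝ) := by linarith
  have h4 : Real.log (Real.log v) - Real.log (Real.log (⌊t⌋₊ : ℝ)) ≤
      Real.log 2 + Real.log (Real.log v / Real.log t) := by
    have h5 := Real.log_le_log (by positivity) hlu
    rw [Real.log_div hlt0.ne' (by norm_num)] at h5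
    rw [Real.log_div hlv0.ne' hlt0.ne']
    linarith
  have h5 : C / Real.log (⌊t⌋₊ : ℝ) ≤ 4 * C := by
    rw [div_le_iff₀ hlu0]
    nlinarith
  linarith

theorem FZB_geom (M : ℕ) : ∑ m ∈ range M, ((1 : ℝ) / 2) ^ m ≤ 2 := by
  have h := Summable.sum_le_tsum (range M) (fun _ _ => by positivity) summable_geometric_two
  rw [tsum_geometric_two] at h
  exact h

/-- the sum over the primes -/
theorem FZB_main {C : ℝ} (hC : 0 < C) (hG : ∀ (u : ℕ) (v : ℝ), 2 ≤ u → (u : ℝ) ≤ v →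
    |∑ l ∈ GD.Qs u v, 2 / (l : ℝ) - (Real.log (Real.log v) - Real.log (Real.log u))| ≤ C / Real.log u)
    (y ε : ℝ) (hy : 2 ≤ y) (hε : 0 < ε) (hε1 : ε ≤ 1) (F : Finset ℕ)
    (hF : ∀ p ∈ F, p.Prime ∧ (p % 8 = 1 ∨ p % 8 = 7) ∧ y < p) :
    ∑ p ∈ F, 2 * (p : ℝ) ^ (-(1 + ε)) ≤
      4 * (2 * Real.log 2 + 4 * C) + Real.log (1 + 1 / (ε * Real.log y)) := by
  have hy0 : 0 < y := by linarith
  have hl2 : 0 < Real.log 2 := Real.log_pos (by norm_num)
  have hly : 0 < Real.log y := Real.log_pos (by linarith)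
  have hK : 0 < 2 * Real.log 2 + 4 * C := by linarith
  set K : ℝ := 2 * Real.log 2 + 4 * C with hKd
  set W : ℝ := Real.log (1 + 1 / (ε * Real.log y)) with hW
  have hW0 : 0 ≤ W := Real.log_nonneg (by
    have : 0 < 1 / (ε * Real.log y) := by positivity
    linarith)
  have hpow : ∀ p : ℕ, p.Prime → 2 * (p : ℝ) ^ (-(1 + ε)) = 2 / (p : ℝ) * Real.exp (-(ε * Real.log p)) := by
    intro p hp
    have hp0 : (0 : ℝ) < p := by exact_mod_cast hp.pos
    rw [neg_add, Real.rpow_add hp0, Real.rpow_neg_one, Real.rpow_def_of_pos hp0]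
    rw [show Real.log (p : ℝ) * -ε = -(ε * Real.log p) by ring]
    ring
  obtain ⟨M, hM⟩ : ∃ M : ℕ, ∀ p ∈ F, ⌈ε * Real.log p⌉₊ ∈ range M := by
    refine ⟨(F.sup fun p => ⌈ε * Real.log (p : ℝ)⌉₊) + 1, fun p hp => ?_⟩
    rw [mem_range]
    exact Nat.lt_succ_of_le (Finset.le_sup (f := fun p : ℕ => ⌈ε * Real.log (p : ℝ)⌉₊) hp)
  rw [← Finset.sum_fiberwise_of_maps_to hM]
  have hin : ∀ m ∈ range M, ∑ p ∈ F.filter (fun p : ℕ => ⌈ε * Real.log (p : ℝ)⌉₊ = m), 2 * (p : ℝ) ^ (-(1 + ε)) ≤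
      ((1 : ℝ) / 2) ^ m * (2 * K) + if m = 1 then W else 0 := by
    intro m _
    have hpk : ∀ p ∈ F, 0 < ε * Real.log p := by
      intro p hp
      have h1 : (1 : ℝ) < p := by exact_mod_cast (hF p hp).1.one_lt
      have := Real.log_pos h1
      positivity
    rcases Nat.lt_or_ge m 1 with hm | hm
    · have hm0 : m = 0 := by omega
      subst hm0
      have hem : (F.filter fun p : ℕ => ⌈ε * Real.log (p : ℝ)⌉₊ = 0) = ∅ := by
        rw [Finset.filter_eq_empty_iff]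
        intro p hp h0
        have := hpk p hp
        rw [Nat.ceil_eq_zero] at h0
        linarith
      rw [hem, Finset.sum_empty, if_neg (by norm_num)]
      positivity
    -- the bounds of the block
    have hblk : ∀ p ∈ F.filter (fun p : ℕ => ⌈ε * Real.log (p : ℝ)⌉₊ = m),
        p.Prime ∧ (p % 8 = 1 ∨ p % 8 = 7) ∧ y < p ∧ Real.exp (((m : ℝ) - 1) / ε) < p ∧
          (p : ℝ) ≤ Real.exp ((m : ℝ) / ε) ∧ (m : ℝ) - 1 ≤ ε * Real.log p := by
      intro p hp
      obtain ⟨h1, h2⟩ := mem_filter.1 hp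
      obtain ⟨h3, h4, h5⟩ := hF p h1
      have hp0 : (0 : ℝ) < p := by exact_mod_cast h3.pos
      have h6 := (Nat.ceil_eq_iff (by omega : m ≠ 0)).1 h2
      have h7 : ((m - 1 : ℕ) : ℝ) = (m : ℝ) - 1 := by
        rw [Nat.cast_sub hm, Nat.cast_one]
      rw [h7] at h6
      refine ⟨h3, h4, h5, ?_, ?_, h6.1.le⟩
      · rw [← Real.lt_log_iff_exp_lt hp0, div_lt_iff₀ hε, mul_comm]
        exact h6.1
      · rw [← Real.log_le_iff_le_exp hp0, le_div_iff₀ hε, mul_comm]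
        exact h6.2
    rcases Nat.lt_or_ge m 2 with hm2 | hm2
    · have hm1 : m = 1 := by omega
      subst hm1
      rw [if_pos rfl, pow_one]
      have h1 : ∑ p ∈ F.filter (fun p : ℕ => ⌈ε * Real.log (p : ℝ)⌉₊ = 1), 2 * (p : ℝ) ^ (-(1 + ε)) ≤
          ∑ p ∈ F.filter (fun p : ℕ => ⌈ε * Real.log (p : ℝ)⌉₊ = 1), 2 / (p : ℝ) := by
        refine sum_le_sum fun p hp => ?_
        obtain ⟨h3, h4, h5, h6, h7, h8⟩ := hblk p hp
        rw [hpow p h3]
        refine mul_le_of_le_one_right (by positivity) ?_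
        rw [Real.exp_le_one_iff, neg_nonpos]
        exact (hpk p (mem_filter.1 hp).1).le
      refine h1.trans ?_
      by_cases hc : y ≤ Real.exp (1 / ε)
      · have h2 := FZB_blk hC hG y (Real.exp (1 / ε)) hy hc
          (F.filter fun p : ℕ => ⌈ε * Real.log (p : ℝ)⌉₊ = 1) (fun p hp => by
            obtain ⟨h3, h4, h5, h6, h7, h8⟩ := hblk p hp
            rw [Nat.cast_one] at h7
            exact ⟨h3, h4, h5, h7⟩)
        refine h2.trans ?_
        rw [Real.log_exp]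
        have h3 : Real.log (1 / ε / Real.log y) ≤ W := by
          rw [hW]
          apply Real.log_le_log (by positivity)
          rw [div_div]
          linarith
        linarith
      · rw [not_le] at hc
        have hem : (F.filter fun p : ℕ => ⌈ε * Real.log (p : ℝ)⌉₊ = 1) = ∅ := by
          rw [Finset.eq_empty_iff_forall_notMem]
          intro p hp
          obtain ⟨h3, h4, h5, h6, h7, h8⟩ := hblk p hp
          rw [Nat.cast_one] at h7
          linarith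
        rw [hem, Finset.sum_empty]
        positivity
    · rw [if_neg (by omega), add_zero]
      have hmR : (2 : ℝ) ≤ m := by exact_mod_cast hm2
      have h1 : ∑ p ∈ F.filter (fun p : ℕ => ⌈ε * Real.log (p : ℝ)⌉₊ = m), 2 * (p : ℝ) ^ (-(1 + ε)) ≤
          ∑ p ∈ F.filter (fun p : ℕ => ⌈ε * Real.log (p : ℝ)⌉₊ = m), (((1 : ℝ) / 2) ^ m * 2) * (2 / (p : ℝ)) := by
        refine sum_le_sum fun p hp => ?_
        obtain ⟨h3, h4, h5, h6, h7, h8⟩ := hblk p hp
        rw [hpow p h3, mul_comm]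
        refine mul_le_mul_of_nonneg_right ?_ (by positivity)
        have h9 : Real.exp (-(ε * Real.log p)) ≤ Real.exp (-((m : ℝ) - 1)) := by
          apply Real.exp_le_exp.2
          linarith
        refine h9.trans ?_
        have h10 : Real.exp (-((m : ℝ) - 1)) = (Real.exp (-1)) ^ (m - 1) := by
          rw [← Real.exp_nat_mul, Nat.cast_sub hm, Nat.cast_one]
          congr 1
          ring
        rw [h10]
        have h11 : Real.exp (-1) ≤ 1 / 2 := by
          rw [Real.exp_neg, one_div]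
          apply inv_anti₀ (by norm_num)
          have := Real.add_one_le_exp (1 : ℝ)
          linarith
        calc Real.exp (-1) ^ (m - 1) ≤ ((1 : ℝ) / 2) ^ (m - 1) :=
              pow_le_pow_left₀ (Real.exp_pos _).le h11 _
          _ = ((1 : ℝ) / 2) ^ m * 2 := by
            obtain ⟨k, rfl⟩ : ∃ k, m = k + 1 := ⟨m - 1, by omega⟩
            rw [Nat.add_sub_cancel, pow_succ]
            ring
      refine h1.trans ?_
      rw [← mul_sum]
      have ht2 : (2 : ℝ) ≤ Real.exp (((m : ℝ) - 1) / ε) := by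
        have h3 : 1 ≤ ((m : ℝ) - 1) / ε := by
          rw [le_div_iff₀ hε]
          linarith
        have := Real.add_one_le_exp (((m : ℝ) - 1) / ε)
        linarith
      have h2 := FZB_blk hC hG (Real.exp (((m : ℝ) - 1) / ε)) (Real.exp ((m : ℝ) / ε)) ht2
        (Real.exp_le_exp.2 (by gcongr; linarith))
        (F.filter fun p : ℕ => ⌈ε * Real.log (p : ℝ)⌉₊ = m) (fun p hp => by
          obtain ⟨h3, h4, h5, h6, h7, h8⟩ := hblk p hp
          exact ⟨h3, h4, h6, h7⟩)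
      rw [Real.log_exp, Real.log_exp] at h2
      have hm1 : 0 < (m : ℝ) - 1 := by linarith
      have h3 : Real.log ((m : ℝ) / ε / (((m : ℝ) - 1) / ε)) ≤ Real.log 2 := by
        apply Real.log_le_log (by positivity)
        rw [div_div_div_cancel_right₀ hε.ne', div_le_iff₀ hm1]
        linarith
      have h4 : ∑ p ∈ F.filter (fun p : ℕ => ⌈ε * Real.log (p : ℝ)⌉₊ = m), 2 / (p : ℝ) ≤ K := by
        rw [hKd]
        linarith
      calc ((1 : ℝ) / 2) ^ m * 2 * ∑ p ∈ F.filter (fun p : ℕ => ⌈ε * Real.log (p : ℝ)⌉₊ = m), 2 / (p : ℝ)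
          ≤ ((1 : ℝ) / 2) ^ m * 2 * K := mul_le_mul_of_nonneg_left h4 (by positivity)
        _ = _ := by ring
  refine (sum_le_sum hin).trans ?_
  rw [sum_add_distrib, ← sum_mul]
  have h1 : ∑ m ∈ range M, (if m = 1 then W else 0) ≤ W := by
    rw [Finset.sum_ite_eq' (range M) 1 (fun _ => W)]
    split_ifs
    · exact le_rfl
    · exact hW0
  have h2 := mul_le_mul_of_nonneg_right (FZB_geom M) (by positivity : 0 ≤ 2 * K)
  linarith

theorem FZB (hG2 : GD.G2_stmt) : FZB_stmt := by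
  obtain ⟨C, hC, hG⟩ := hG2
  have hsum2 : Summable fun n : ℕ => 2 * (1 / (n : ℝ) ^ 2) :=
    (Real.summable_one_div_nat_pow.2 (by norm_num)).mul_left 2
  set C₀ : ℝ := ∑' n : ℕ, 2 * (1 / (n : ℝ) ^ 2) with hC₀
  refine ⟨Real.exp (4 * (2 * Real.log 2 + 4 * C) + C₀), Real.exp_pos _, ?_⟩
  intro k₁ k₂ hk₁ hk₂ hk y σ hy hσ hσ2
  have hs : 1 < ((σ : ℂ)).re := by rw [Complex.ofReal_re]; exact hσ
  obtain ⟨S, hS, hn⟩ := TFO_norm (FZB_CM y hk₁) (FZB_CM y hk₂) hs
  rw [hn]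
  have hly : 0 < Real.log y := Real.log_pos (by linarith)
  have hε : 0 < σ - 1 := by linarith
  have hWp : 0 < 1 + 1 / ((σ - 1) * Real.log y) := by positivity
  have hSle : S ≤ 4 * (2 * Real.log 2 + 4 * C) + Real.log (1 + 1 / ((σ - 1) * Real.log y)) + C₀ := by
    refine hasSum_le_of_sum_le hS fun s => ?_
    have hterm : ∀ p ∈ s, (-Complex.log (1 - rg y k₁ p * (p : ℂ) ^ (-(σ : ℂ)))).re +
        (-Complex.log (1 - rg y k₂ p * (p : ℂ) ^ (-(σ : ℂ)))).re ≤
        (if ((p : ℕ) % 8 = 1 ∨ (p : ℕ) % 8 = 7) ∧ y < (p : ℕ) then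
          2 * ((p : ℕ) : ℝ) ^ (-(1 + (σ - 1))) else 0) + 2 * (1 / ((p : ℕ) : ℝ) ^ 2) := by
      intro p _
      have hp2 : (2 : ℝ) ≤ ((p : ℕ) : ℝ) := by exact_mod_cast p.2.two_le
      have hp0 : (0 : ℝ) < ((p : ℕ) : ℝ) := by linarith
      by_cases hyp : y < ((p : ℕ) : ℝ)
      · have e1 : rg y k₁ p = k₁ p := by
          unfold rg
          rw [if_pos ((FZB_rgh_prime y p.2).2 hyp)]
        have e2 : rg y k₂ p = k₂ p := by
          unfold rg
          rw [if_pos ((FZB_rgh_prime y p.2).2 hyp)]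
        rw [e1, e2]
        set a : ℝ := ((p : ℕ) : ℝ) ^ (-σ) with ha
        have ha0 : 0 ≤ a := Real.rpow_nonneg hp0.le _
        have hac : ((p : ℕ) : ℂ) ^ (-(σ : ℂ)) = (a : ℂ) := by
          rw [ha, Complex.ofReal_cpow hp0.le]
          push_cast
          rfl
        have ha1 : a ≤ 1 / ((p : ℕ) : ℝ) := by
          rw [ha, one_div, ← Real.rpow_neg_one]
          exact Real.rpow_le_rpow_of_exponent_le (by linarith) (by linarith)
        have ha2 : 1 / ((p : ℕ) : ℝ) ≤ 1 / 2 := by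
          apply one_div_le_one_div_of_le (by norm_num) hp2
        rw [hac]
        have hw1 : ‖k₁ p * (a : ℂ)‖ ≤ a := by
          rw [norm_mul, Complex.norm_real, Real.norm_of_nonneg ha0]
          exact mul_le_of_le_one_left ha0 (hk₁.2.2.2 _)
        have hw2 : ‖k₂ p * (a : ℂ)‖ ≤ a := by
          rw [norm_mul, Complex.norm_real, Real.norm_of_nonneg ha0]
          exact mul_le_of_le_one_left ha0 (hk₂.2.2.2 _)
        have l1 := FZB_log (hw1.trans (ha1.trans ha2))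
        have l2 := FZB_log (hw2.trans (ha1.trans ha2))
        have hsq : a ^ 2 ≤ 1 / ((p : ℕ) : ℝ) ^ 2 := by
          calc a ^ 2 ≤ (1 / ((p : ℕ) : ℝ)) ^ 2 := pow_le_pow_left₀ ha0 ha1 2
            _ = _ := by rw [div_pow, one_pow]
        have q1 : ‖k₁ p * (a : ℂ)‖ ^ 2 ≤ a ^ 2 := pow_le_pow_left₀ (norm_nonneg _) hw1 2
        have q2 : ‖k₂ p * (a : ℂ)‖ ^ 2 ≤ a ^ 2 := pow_le_pow_left₀ (norm_nonneg _) hw2 2
        have q3 : (k₁ p * (a : ℂ)).re + (k₂ p * (a : ℂ)).re ≤ ‖k₁ p + k₂ p‖ * a := by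
          rw [← Complex.add_re, ← add_mul]
          refine (Complex.re_le_norm _).trans ?_
          rw [norm_mul, Complex.norm_real, Real.norm_of_nonneg ha0]
        have q4 := mul_le_mul_of_nonneg_right (hk p p.2) ha0
        have q5 : (if ((p : ℕ) % 8 = 1 ∨ (p : ℕ) % 8 = 7) then (2 : ℝ) else 0) * a =
            (if ((p : ℕ) % 8 = 1 ∨ (p : ℕ) % 8 = 7) ∧ y < ((p : ℕ) : ℝ) then
              2 * ((p : ℕ) : ℝ) ^ (-(1 + (σ - 1))) else 0) := by
          have e3 : -(1 + (σ - 1)) = -σ := by ring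
          rw [e3, ← ha]
          by_cases h8 : ((p : ℕ) % 8 = 1 ∨ (p : ℕ) % 8 = 7)
          · rw [if_pos h8, if_pos ⟨h8, hyp⟩]
          · rw [if_neg h8, if_neg (fun h => h8 h.1), zero_mul]
        rw [q5] at q4
        linarith
      · have e1 : rg y k₁ p = 0 := by
          unfold rg
          rw [if_neg (fun h => hyp ((FZB_rgh_prime y p.2).1 h))]
        have e2 : rg y k₂ p = 0 := by
          unfold rg
          rw [if_neg (fun h => hyp ((FZB_rgh_prime y p.2).1 h))]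
        rw [e1, e2, if_neg (fun h => hyp h.2), zero_mul, sub_zero, Complex.log_one, neg_zero,
          Complex.zero_re]
        have h0 : 0 ≤ 2 * (1 / ((p : ℕ) : ℝ) ^ 2) := by positivity
        linarith
    refine (sum_le_sum hterm).trans ?_
    rw [sum_add_distrib]
    refine add_le_add ?_ ?_
    · have h1 := FZB_main hC hG y (σ - 1) hy hε (by linarith)
        ((s.map ⟨fun p : Nat.Primes => (p : ℕ), Subtype.val_injective⟩).filter
          fun p : ℕ => (p % 8 = 1 ∨ p % 8 = 7) ∧ y < p) (fun p hp => by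
            obtain ⟨h2, h3, h4⟩ := mem_filter.1 hp
            obtain ⟨q, _, rfl⟩ := mem_map.1 h2
            exact ⟨q.2, h3, h4⟩)
      rw [sum_filter, sum_map] at h1
      exact h1
    · have h1 := Summable.sum_le_tsum (s.map ⟨fun p : Nat.Primes => (p : ℕ), Subtype.val_injective⟩)
        (fun n _ => by positivity) hsum2
      rw [sum_map] at h1
      exact h1
  calc Real.exp S ≤ Real.exp (4 * (2 * Real.log 2 + 4 * C) +
        Real.log (1 + 1 / ((σ - 1) * Real.log y)) + C₀) := Real.exp_le_exp.2 hSle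
    _ = Real.exp (4 * (2 * Real.log 2 + 4 * C) + C₀) * (1 + 1 / ((σ - 1) * Real.log y)) := by
      rw [show 4 * (2 * Real.log 2 + 4 * C) + Real.log (1 + 1 / ((σ - 1) * Real.log y)) + C₀ =
        (4 * (2 * Real.log 2 + 4 * C) + C₀) + Real.log (1 + 1 / ((σ - 1) * Real.log y)) by ring,
        Real.exp_add, Real.exp_log hWp]

end Pool.Agent.BP
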