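import Pool.Agent.helper36.BP.SpecD

/-!
# bp:GFM
-/

set_option autoImplicit false

open Finset
open Pool.Agent.FI Pool.Agent.HK
open Pool.Agent.CH (nit rgh ll2)
open Pool.Agent.SK (tr0 Th)

noncomputable section

namespace Pool.Agent.BP

theorem GFM_cop {a b : ℕ} (h : Squarefree (a * b)) : Nat.Coprime a b := Nat.coprime_of_squarefree_mul h

theorem GFM_mu {a b : ℕ} (h : Nat.Coprime a b) :
    ((ArithmeticFunction.moebius (a * b) : ℤ) : ℂ) =
      (ArithmeticFunction.moebius a : ℂ) * (ArithmeticFunction.moebius b : ℂ) := by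
  rw [ArithmeticFunction.isMultiplicative_moebius.map_mul_of_coprime h]
  push_cast
  rfl

theorem GFM_sq {b : ℕ} (h : Squarefree b) :
    ((ArithmeticFunction.moebius b : ℤ) : ℂ) * (ArithmeticFunction.moebius b : ℂ) = 1 := by
  have h1 := ArithmeticFunction.moebius_sq_eq_one_of_squarefree h
  rw [sq] at h1
  exact_mod_cast h1

theorem GFM : GFM_stmt := by
  classical
  intro g h hg hh n hn
  set S := n.divisors.filter fun b => b ^ 2 ∣ n ∧ Squarefree b ∧ Nat.Coprime b (n / b ^ 2) with hS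
  -- the right side as one sum
  have hR : ∑ b ∈ S, (ArithmeticFunction.moebius (n / b ^ 2) : ℂ) * cv g h (n / b ^ 2) * (g b * h b) =
      ∑ x ∈ (S.sigma fun b => (n / b ^ 2).divisorsAntidiagonal).filter (fun x => Squarefree (n / x.1 ^ 2)),
        (ArithmeticFunction.moebius (n / x.1 ^ 2) : ℂ) * (g x.2.1 * h x.2.2) * (g x.1 * h x.1) := by
    symm
    rw [sum_filter, sum_sigma]
    refine sum_congr rfl fun b _ => ?_
    unfold cv
    rw [mul_sum, sum_mul]
    refine sum_congr rfl fun e _ => ?_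
    dsimp only
    by_cases hq : Squarefree (n / b ^ 2)
    · rw [if_pos hq]
    · rw [if_neg hq, ArithmeticFunction.moebius_eq_zero_of_not_squarefree hq, Int.cast_zero, zero_mul, zero_mul]
  have hL : cv (mg g) (mg h) n =
      ∑ d ∈ n.divisorsAntidiagonal.filter (fun d => Squarefree d.1 ∧ Squarefree d.2), mg g d.1 * mg h d.2 := by
    rw [sum_filter]
    unfold cv
    refine sum_congr rfl fun d _ => ?_
    by_cases h1 : Squarefree d.1
    · by_cases h2 : Squarefree d.2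
      · rw [if_pos ⟨h1, h2⟩]
      · rw [if_neg (fun h3 => h2 h3.2)]
        unfold mg
        rw [ArithmeticFunction.moebius_eq_zero_of_not_squarefree h2, Int.cast_zero, zero_mul, mul_zero]
    · rw [if_neg (fun h3 => h1 h3.1)]
      unfold mg
      rw [ArithmeticFunction.moebius_eq_zero_of_not_squarefree h1, Int.cast_zero, zero_mul, zero_mul]
  rw [hL, hR]
  symm
  -- the data of an element of the right side
  have hdat : ∀ x ∈ (S.sigma fun b => (n / b ^ 2).divisorsAntidiagonal).filter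
      (fun x => Squarefree (n / x.1 ^ 2)), 0 < x.1 ∧ x.1 ^ 2 * (x.2.1 * x.2.2) = n ∧ Squarefree x.1 ∧
        Nat.Coprime x.1 x.2.1 ∧ Nat.Coprime x.1 x.2.2 ∧ Squarefree (x.2.1 * x.2.2) ∧
        n / x.1 ^ 2 = x.2.1 * x.2.2 := by
    rintro ⟨b, e⟩ hx
    obtain ⟨hx1, hx2⟩ := mem_filter.1 hx
    obtain ⟨hx3, hx4⟩ := mem_sigma.1 hx1
    obtain ⟨hx5, hx6, hx7, hx8⟩ := mem_filter.1 hx3
    obtain ⟨hx9, hx10⟩ := Nat.mem_divisorsAntidiagonal.1 hx4
    dsimp only at hx2 hx5 hx6 hx7 hx8 hx9 ⊢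
    have hb0 : 0 < b := Nat.pos_of_mem_divisors hx5
    rw [← hx9] at hx8 hx2
    refine ⟨hb0, ?_, hx7, Nat.Coprime.coprime_mul_right_right hx8, Nat.Coprime.coprime_mul_left_right hx8,
      hx2, hx9.symm⟩
    rw [hx9]
    exact Nat.mul_div_cancel' hx6
  -- the data of an element of the left side
  have hdal : ∀ d ∈ n.divisorsAntidiagonal.filter (fun d => Squarefree d.1 ∧ Squarefree d.2),
      0 < Nat.gcd d.1 d.2 ∧ d.1 * d.2 = n ∧
      Nat.gcd d.1 d.2 * (d.1 / Nat.gcd d.1 d.2) = d.1 ∧ Nat.gcd d.1 d.2 * (d.2 / Nat.gcd d.1 d.2) = d.2 ∧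
      Squarefree d.1 ∧ Squarefree d.2 := by
    intro d hd
    obtain ⟨h1, h2, h3⟩ := mem_filter.1 hd
    obtain ⟨h4, h5⟩ := Nat.mem_divisorsAntidiagonal.1 h1
    have h6 : d.1 ≠ 0 := h2.ne_zero
    exact ⟨Nat.gcd_pos_of_pos_left _ (Nat.pos_of_ne_zero h6), h4, Nat.mul_div_cancel' (Nat.gcd_dvd_left _ _),
      Nat.mul_div_cancel' (Nat.gcd_dvd_right _ _), h2, h3⟩
  refine sum_bij' (fun x _ => (x.1 * x.2.1, x.1 * x.2.2))
    (fun d _ => ⟨Nat.gcd d.1 d.2, (d.1 / Nat.gcd d.1 d.2, d.2 / Nat.gcd d.1 d.2)⟩) ?_ ?_ ?_ ?_ ?_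
  · intro x hx
    obtain ⟨h1, h2, h3, h4, h5, h6, h7⟩ := hdat x hx
    have h8 := Squarefree.of_mul_left h6
    have h9 := Squarefree.of_mul_right h6
    rw [mem_filter, Nat.mem_divisorsAntidiagonal]
    refine ⟨⟨?_, by omega⟩, (Nat.squarefree_mul h4).2 ⟨h3, h8⟩, (Nat.squarefree_mul h5).2 ⟨h3, h9⟩⟩
    dsimp only
    rw [← h2]
    ring
  · intro d hd
    obtain ⟨h1, h2, h3, h4, h5, h6⟩ := hdal d hd
    set b := Nat.gcd d.1 d.2 with hb
    set a := d.1 / b with ha
    set c := d.2 / b with hc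
    have h7 : b ^ 2 * (a * c) = n := by
      rw [← h2]
      calc b ^ 2 * (a * c) = (b * a) * (b * c) := by ring
        _ = d.1 * d.2 := by rw [h3, h4]
    have h8 : n / b ^ 2 = a * c := by
      rw [← h7, Nat.mul_div_cancel_left _ (by positivity)]
    have h5' := h5
    have h6' := h6
    rw [← h3] at h5'
    rw [← h4] at h6'
    have h9 : Nat.Coprime b a := GFM_cop h5'
    have h10 : Nat.Coprime b c := GFM_cop h6'
    have h11 : Nat.Coprime a c := by
      rw [ha, hc, hb]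
      exact Nat.coprime_div_gcd_div_gcd h1
    rw [mem_filter, mem_sigma]
    refine ⟨⟨?_, ?_⟩, ?_⟩
    · dsimp only
      rw [hS, mem_filter, Nat.mem_divisors]
      refine ⟨⟨⟨b * (a * c), by rw [← h7]; ring⟩, by omega⟩, ⟨a * c, h7.symm⟩, Squarefree.of_mul_left h5', ?_⟩
      rw [h8]
      exact Nat.Coprime.mul_right h9 h10
    · dsimp only
      rw [h8, Nat.mem_divisorsAntidiagonal]
      refine ⟨rfl, ?_⟩
      intro h0
      rw [h0, mul_zero] at h7
      omega
    · dsimp only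
      rw [h8]
      exact (Nat.squarefree_mul h11).2 ⟨Squarefree.of_mul_right h5', Squarefree.of_mul_right h6'⟩
  · intro x hx
    obtain ⟨h1, h2, h3, h4, h5, h6, h7⟩ := hdat x hx
    obtain ⟨b, e1, e2⟩ := x
    dsimp only at h1 h6 ⊢
    have h8 : Nat.gcd (b * e1) (b * e2) = b := by
      rw [Nat.gcd_mul_left, (GFM_cop h6), mul_one]
    rw [h8, Nat.mul_div_cancel_left _ h1, Nat.mul_div_cancel_left _ h1]
  · intro d hd
    obtain ⟨h1, h2, h3, h4, h5, h6⟩ := hdal d hd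
    dsimp only
    rw [h3, h4]
  · intro x hx
    obtain ⟨h1, h2, h3, h4, h5, h6, h7⟩ := hdat x hx
    unfold mg
    dsimp only
    rw [h7, GFM_mu (GFM_cop h6), GFM_mu h4, GFM_mu h5, hg.2.2.1, hh.2.2.1]
    have h8 := GFM_sq h3
    linear_combination (-((ArithmeticFunction.moebius x.2.1 : ℤ) : ℂ) * (ArithmeticFunction.moebius x.2.2 : ℂ) *
      g x.1 * g x.2.1 * h x.1 * h x.2.2) * h8

end Pool.Agent.BP
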