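import Pool.Agent.helper36.BP.SpecD

/-!
# bp:KYD
-/

set_option autoImplicit false

open Finset
open Pool.Agent.FI Pool.Agent.HK
open Pool.Agent.CH (nit rgh ll2)
open Pool.Agent.SK (tr0 Th)

noncomputable section

namespace Pool.Agent.BP

/-- a function with value zero at zero as an arithmetic function -/
def KYD_af (f : ℕ → ℂ) : ArithmeticFunction ℂ := ⟨fun n => if n = 0 then 0 else f n, by simp⟩

theorem KYD_af_apply (f : ℕ → ℂ) {n : ℕ} (hn : n ≠ 0) : KYD_af f n = f n := by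
  show (if n = 0 then 0 else f n) = f n
  rw [if_neg hn]

theorem KYD_af_mul (f g : ℕ → ℂ) (n : ℕ) : (KYD_af f * KYD_af g) n = cv f g n := by
  rw [ArithmeticFunction.mul_apply]
  unfold cv
  refine sum_congr rfl fun d hd => ?_
  obtain ⟨hd1, hd2⟩ := Nat.mem_divisorsAntidiagonal.1 hd
  have h1 : d.1 ≠ 0 := fun h0 => hd2 (by rw [← hd1, h0, zero_mul])
  have h2 : d.2 ≠ 0 := fun h0 => hd2 (by rw [← hd1, h0, mul_zero])
  rw [KYD_af_apply f h1, KYD_af_apply g h2]

theorem KYD_inv {g : ℕ → ℂ} (hg : CM g) : KYD_af g * KYD_af (mg g) = 1 := by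
  ext n
  rw [KYD_af_mul]
  unfold cv mg
  have h1 : ∑ d ∈ n.divisorsAntidiagonal, g d.1 * ((ArithmeticFunction.moebius d.2 : ℂ) * g d.2) =
      g n * ∑ d ∈ n.divisorsAntidiagonal, (ArithmeticFunction.moebius d.2 : ℂ) := by
    rw [mul_sum]
    refine sum_congr rfl fun d hd => ?_
    rw [← (Nat.mem_divisorsAntidiagonal.1 hd).1, hg.2.2.1]
    ring
  rw [h1]
  have h2 : ∑ d ∈ n.divisorsAntidiagonal, (ArithmeticFunction.moebius d.2 : ℂ) =
      (((ArithmeticFunction.zeta : ArithmeticFunction ℤ) * ArithmeticFunction.moebius) n : ℤ) := by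
    rw [ArithmeticFunction.mul_apply]
    push_cast
    refine sum_congr rfl fun d hd => ?_
    obtain ⟨hd1, hd2⟩ := Nat.mem_divisorsAntidiagonal.1 hd
    have h3 : d.1 ≠ 0 := fun h0 => hd2 (by rw [← hd1, h0, zero_mul])
    rw [ArithmeticFunction.natCoe_apply, ArithmeticFunction.zeta_apply_ne h3]
    simp
  rw [h2, ArithmeticFunction.coe_zeta_mul_moebius]
  rcases eq_or_ne n 1 with rfl | hn
  · simp [hg.2.1]
  · rw [ArithmeticFunction.one_apply_ne hn, ArithmeticFunction.one_apply_ne hn]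
    simp

/-- a product at `b` depends only on the values up to `b` -/
theorem KYD_cut {ι : Type*} (s : Finset ι) (u v : ι → ArithmeticFunction ℂ) (N : ℕ)
    (h : ∀ k ∈ s, ∀ m ≤ N, u k m = v k m) : ∀ b ≤ N, (∏ k ∈ s, u k) b = (∏ k ∈ s, v k) b := by
  classical
  induction s using Finset.induction_on with
  | empty => intro b _; simp
  | insert a s ha ih =>
    intro b hb
    rw [prod_insert ha, prod_insert ha, ArithmeticFunction.mul_apply, ArithmeticFunction.mul_apply]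
    refine sum_congr rfl fun d hd => ?_
    obtain ⟨hd1, hd2⟩ := Nat.mem_divisorsAntidiagonal.1 hd
    have h1 : d.1 ≤ b := Nat.le_of_dvd (Nat.pos_of_ne_zero hd2) ⟨d.2, hd1.symm⟩
    have h2 : d.2 ≤ b := Nat.le_of_dvd (Nat.pos_of_ne_zero hd2) ⟨d.1, by rw [mul_comm]; exact hd1.symm⟩
    rw [h a (mem_insert_self a s) d.1 (h1.trans hb),
      ih (fun k hk => h k (mem_insert_of_mem hk)) d.2 (h2.trans hb)]

theorem KYD_w0 (x : ℕ) (z : ℤ × ℤ) : wt x 0 z = 1 := by
  unfold wt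
  rw [if_pos rfl]

theorem KYD_w1 (x : ℕ) (z : ℤ × ℤ) : wt x 1 z = Real.log (nn z) := by
  unfold wt
  rw [if_neg one_ne_zero, if_pos rfl]

theorem KYD_w2 (x : ℕ) (z : ℤ × ℤ) : wt x 2 z = if nn z ≤ zx x then mue z else 0 := by
  unfold wt
  rw [if_neg two_ne_zero, if_neg (by norm_num)]

theorem KYD_zx {x : ℕ} : 64 * x ^ 2 ≤ zx x ^ 3 := by
  have h1 : 4 * (x : ℝ) ^ (2 / 3 : ℝ) ≤ zx x := Nat.le_ceil _
  have h2 : (4 * (x : ℝ) ^ (2 / 3 : ℝ)) ^ 3 = 64 * (x : ℝ) ^ 2 := by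
    rw [mul_pow, ← Real.rpow_natCast ((x : ℝ) ^ (2 / 3 : ℝ)) 3, ← Real.rpow_mul (by positivity)]
    norm_num
  have h3 : (64 * (x : ℝ) ^ 2) ≤ (zx x : ℝ) ^ 3 := by
    rw [← h2]
    exact pow_le_pow_left₀ (by positivity) h1 3
  exact_mod_cast h3

theorem KYD (hHBI : HBI_stmt) (hPDC : PDC_stmt) (hMUE : MUE_stmt) (hLGC : LGC_stmt) : KYD_stmt := by
  classical
  intro x d Ψ hx hd hU g h hg hh hrf E W hE hW
  have hmue := hMUE d Ψ hd hU g h hg hh hrf
  -- the three kinds of functions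
  set fk : ℕ → ArithmeticFunction ℂ := fun a => KYD_af (rf (fun z => (wt x a z : ℂ) * Ψ z)) with hfk
  set Ga : ArithmeticFunction ℂ := KYD_af (mg g) * KYD_af (mg h) with hGa
  have hf0 : fk 0 = KYD_af g * KYD_af h := by
    ext n
    rcases eq_or_ne n 0 with rfl | hn
    · simp
    · rw [hfk]
      dsimp only
      rw [KYD_af_apply _ hn, KYD_af_mul, ← hrf n (Nat.pos_of_ne_zero hn)]
      unfold rf
      refine sum_congr rfl fun z _ => ?_
      dsimp only
      rw [KYD_w0, Complex.ofReal_one, one_mul]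
  have hf1 : ∀ n : ℕ, fk 1 n = cv g h n * (Real.log n : ℂ) := by
    intro n
    rcases eq_or_ne n 0 with rfl | hn
    · simp
    · rw [hfk]
      dsimp only
      rw [KYD_af_apply _ hn, ← hrf n (Nat.pos_of_ne_zero hn)]
      unfold rf
      rw [sum_mul]
      refine sum_congr rfl fun z hz => ?_
      dsimp only
      rw [KYD_w1, (mem_filter.1 hz).2, mul_comm]
  have hf2 : fk 2 = trn (zx x) Ga := by
    ext n
    show _ = (if n ≤ zx x then Ga n else 0)
    rcases eq_or_ne n 0 with rfl | hn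
    · simp
    · rw [hfk, hGa]
      dsimp only
      rw [KYD_af_apply _ hn, KYD_af_mul, ← hmue n (Nat.pos_of_ne_zero hn)]
      unfold rf
      split_ifs with hc
      · refine sum_congr rfl fun z hz => ?_
        dsimp only
        rw [KYD_w2, if_pos (by rw [(mem_filter.1 hz).2]; exact hc)]
      · refine sum_eq_zero fun z hz => ?_
        rw [KYD_w2, if_neg (by rw [(mem_filter.1 hz).2]; exact hc)]
        rw [Complex.ofReal_zero, zero_mul]
  -- the unit
  have hFG : fk 0 * Ga = 1 := by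
    rw [hf0, hGa]
    calc KYD_af g * KYD_af h * (KYD_af (mg g) * KYD_af (mg h)) =
        (KYD_af g * KYD_af (mg g)) * (KYD_af h * KYD_af (mg h)) := by ring
      _ = 1 := by rw [KYD_inv hg, KYD_inv hh, mul_one]
  -- the logarithmic derivative
  have hL : fk 1 = KYD_af (LG g h) * fk 0 := by
    ext n
    rw [hf1, hLGC g h hg hh n, ArithmeticFunction.mul_apply]
    refine sum_congr rfl fun e he => ?_
    obtain ⟨he1, he2⟩ := Nat.mem_divisorsAntidiagonal.1 he
    have h1 : e.1 ≠ 0 := fun h0 => he2 (by rw [← he1, h0, zero_mul])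
    rw [KYD_af_apply _ h1, hf0, KYD_af_mul]
  have hGH : Ga * fk 1 = KYD_af (LG g h) := by
    rw [hL]
    calc Ga * (KYD_af (LG g h) * fk 0) = KYD_af (LG g h) * (fk 0 * Ga) := by ring
      _ = _ := by rw [hFG, mul_one]
  -- the identity
  have hid : ∀ n ∈ Ioc 0 (64 * x ^ 2), LG g h n * W n = ∑ i ∈ Icc 1 3, (-1 : ℂ) ^ (i + 1) *
      (Nat.choose 3 i : ℂ) * ((((fk 2) ^ i * (fk 0) ^ (i - 1) * fk 1) n) * W n) := by
    intro n hn
    obtain ⟨hn0, hn1⟩ := mem_Ioc.1 hn
    have h1 := hHBI (fk 0) Ga (fk 1) (zx x) n hFG hn0 (hn1.trans KYD_zx)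
    rw [hGH, KYD_af_apply _ hn0.ne', ← hf2] at h1
    rw [h1, sum_mul]
    refine sum_congr rfl fun i _ => ?_
    ring
  rw [sum_congr rfl hid, sum_comm]
  refine sum_congr rfl fun i hi => ?_
  obtain ⟨hi1, hi3⟩ := mem_Icc.1 hi
  rw [← mul_sum]
  refine congrArg (fun z => (-1 : ℂ) ^ (i + 1) * (Nat.choose 3 i : ℂ) * z) ?_
  -- the product
  have hprod : (fk 2) ^ i * (fk 0) ^ (i - 1) * fk 1 = ∏ k : Fin (2 * i), fk (ak i k) := by
    have h3 : i = 1 ∨ i = 2 ∨ i = 3 := by omega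
    rcases h3 with rfl | rfl | rfl
    · have e : ∏ k : Fin (2 * 1), fk (ak 1 k) = fk (ak 1 (0 : Fin 2)) * fk (ak 1 (1 : Fin 2)) :=
        Fin.prod_univ_two _
      rw [e]
      have a0 : ak 1 (0 : Fin 2) = 2 := by unfold ak; decide
      have a1 : ak 1 (1 : Fin 2) = 1 := by unfold ak; decide
      rw [a0, a1]
      ring
    · have e : ∏ k : Fin (2 * 2), fk (ak 2 k) = fk (ak 2 (0 : Fin 4)) * fk (ak 2 (1 : Fin 4)) *
          fk (ak 2 (2 : Fin 4)) * fk (ak 2 (3 : Fin 4)) :=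
        Fin.prod_univ_four _
      rw [e]
      have a0 : ak 2 (0 : Fin 4) = 2 := by unfold ak; decide
      have a1 : ak 2 (1 : Fin 4) = 2 := by unfold ak; decide
      have a2 : ak 2 (2 : Fin 4) = 0 := by unfold ak; decide
      have a3 : ak 2 (3 : Fin 4) = 1 := by unfold ak; decide
      rw [a0, a1, a2, a3]
      ring
    · have e : ∏ k : Fin (2 * 3), fk (ak 3 k) = fk (ak 3 (0 : Fin 6)) * fk (ak 3 (1 : Fin 6)) *
          fk (ak 3 (2 : Fin 6)) * fk (ak 3 (3 : Fin 6)) * fk (ak 3 (4 : Fin 6)) * fk (ak 3 (5 : Fin 6)) :=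
        Fin.prod_univ_six _
      rw [e]
      have a0 : ak 3 (0 : Fin 6) = 2 := by unfold ak; decide
      have a1 : ak 3 (1 : Fin 6) = 2 := by unfold ak; decide
      have a2 : ak 3 (2 : Fin 6) = 2 := by unfold ak; decide
      have a3 : ak 3 (3 : Fin 6) = 0 := by unfold ak; decide
      have a4 : ak 3 (4 : Fin 6) = 0 := by unfold ak; decide
      have a5 : ak 3 (5 : Fin 6) = 1 := by unfold ak; decide
      rw [a0, a1, a2, a3, a4, a5]
      ring
  -- the cut functions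
  set u : Fin (2 * i) → ArithmeticFunction ℂ := fun k =>
    KYD_af (fun m => if m < 2 ^ E then rf (fun z => (wt x (ak i k) z : ℂ) * Ψ z) m else 0) with hu
  have hucut : ∀ k m, 2 ^ E ≤ m → u k m = 0 := by
    intro k m hm
    have hm0 : m ≠ 0 := by
      have : 0 < 2 ^ E := by positivity
      omega
    rw [hu]
    dsimp only
    rw [KYD_af_apply _ hm0, if_neg (by omega)]
  have h4 := hPDC (2 * i) E u hucut W
  have h5 : ∑ b ∈ Ioc 0 (2 ^ (E * (2 * i))), (∏ k, u k) b * W b =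
      ∑ n ∈ Ioc 0 (64 * x ^ 2), ((fk 2) ^ i * (fk 0) ^ (i - 1) * fk 1) n * W n := by
    have hle : 64 * x ^ 2 ≤ 2 ^ (E * (2 * i)) := by
      refine hE.le.trans (Nat.pow_le_pow_right (by norm_num) ?_)
      exact Nat.le_mul_of_pos_right E (by omega)
    rw [← sum_subset (Ioc_subset_Ioc_right hle) (fun b _ hb => by
      rw [hW b ?_, mul_zero]
      rw [mem_Ioc] at hb
      rename_i hb2
      have := (mem_Ioc.1 hb2).1
      omega)]
    refine sum_congr rfl fun n hn => ?_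
    obtain ⟨hn0, hn1⟩ := mem_Ioc.1 hn
    rw [hprod]
    refine congrArg (fun z => z * W n) (KYD_cut univ u (fun k => fk (ak i k)) (64 * x ^ 2) ?_ n hn1)
    intro k _ m hm
    rcases eq_or_ne m 0 with rfl | hm0
    · simp
    · rw [hu, hfk]
      dsimp only
      rw [KYD_af_apply _ hm0, KYD_af_apply _ hm0, if_pos (by omega)]
  rw [← h5, h4]
  refine sum_congr rfl fun e he => ?_
  unfold blk
  refine sum_congr rfl fun m hm => ?_
  refine congrArg (fun z => z * W (∏ k, m k)) (prod_congr rfl fun k _ => ?_)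
  have he1 := mem_range.1 (Fintype.mem_piFinset.1 he k)
  obtain ⟨hm1, hm2⟩ := mem_Ico.1 (Fintype.mem_piFinset.1 hm k)
  have hm3 : m k ≠ 0 := by
    have : 0 < 2 ^ e k := by positivity
    omega
  have hm4 : m k < 2 ^ E := hm2.trans_le (Nat.pow_le_pow_right (by norm_num) he1)
  rw [hu]
  dsimp only
  rw [KYD_af_apply _ hm3, if_pos hm4]

end Pool.Agent.BP
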