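import Pool.Agent.helper36.BP.SpecR

/-!
# bp:RDB
-/

set_option autoImplicit false

open Finset MeasureTheory
open Pool.Agent.FI Pool.Agent.HK
open Pool.Agent.CH (nit rgh ll2)
open Pool.Agent.SK (tr0 Th)

noncomputable section

namespace Pool.Agent.BP

/-- `(log u)^j` is at most a constant times a small power. -/
theorem RDB_log_pow (j : ℕ) {c u : ℝ} (hc : 0 < c) (hu : 1 ≤ u) :
    Real.log u ^ j ≤ j.factorial * (1 / c) ^ j * u ^ c := by
  have h0 : 0 ≤ Real.log u := Real.log_nonneg hu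
  have h1 := Real.pow_div_factorial_le_exp (x := c * Real.log u) (by positivity) j
  have h2 : Real.exp (c * Real.log u) = u ^ c := by
    rw [Real.rpow_def_of_pos (by linarith), mul_comm]
  rw [h2, div_le_iff₀ (by positivity), mul_pow] at h1
  have h3 : Real.log u ^ j = (1 / c) ^ j * (c ^ j * Real.log u ^ j) := by
    rw [← mul_assoc, ← mul_pow, one_div, inv_mul_cancel₀ hc.ne', one_pow, one_mul]
  rw [h3]
  calc (1 / c) ^ j * (c ^ j * Real.log u ^ j) ≤ (1 / c) ^ j * (u ^ c * j.factorial) := by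
        gcongr
    _ = _ := by ring

/-- Abel summation with a monotone weight. -/
theorem RDB_abel (a : ℕ → ℂ) (w : ℕ → ℝ) (T : ℝ) (hw : ∀ m, 1 ≤ m → w m ≤ w (m + 1))
    (hw1 : 0 ≤ w 1) (hT : 0 ≤ T) (N : ℕ) (hN : 1 ≤ N)
    (hA : ∀ m ≤ N, ‖∑ n ∈ Icc 1 m, a n‖ ≤ T) :
    ‖∑ n ∈ Icc 1 N, a n * (w n : ℂ)‖ ≤ 2 * w N * T := by
  have key : ∀ M, 1 ≤ M → M ≤ N →
      ‖∑ n ∈ Icc 1 M, a n * (w n : ℂ) - (∑ n ∈ Icc 1 M, a n) * (w M : ℂ)‖ ≤ (w M - w 1) * T := by
    intro M hM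
    induction M, hM using Nat.le_induction with
    | base => intro _; simp
    | succ M hM ih =>
      intro hMN
      have ih' := ih (by omega)
      rw [Finset.sum_Icc_succ_top (by omega), Finset.sum_Icc_succ_top (by omega)]
      have e : ∑ n ∈ Icc 1 M, a n * (w n : ℂ) + a (M + 1) * (w (M + 1) : ℂ) -
          (∑ n ∈ Icc 1 M, a n + a (M + 1)) * (w (M + 1) : ℂ)
          = (∑ n ∈ Icc 1 M, a n * (w n : ℂ) - (∑ n ∈ Icc 1 M, a n) * (w M : ℂ)) -
            (∑ n ∈ Icc 1 M, a n) * ((w (M + 1) - w M : ℝ) : ℂ) := by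
        push_cast; ring
      rw [e]
      refine le_trans (norm_sub_le _ _) ?_
      rw [norm_mul, Complex.norm_real, Real.norm_of_nonneg (sub_nonneg.mpr (hw M hM))]
      have h1 : ‖∑ n ∈ Icc 1 M, a n‖ * (w (M + 1) - w M) ≤ T * (w (M + 1) - w M) :=
        mul_le_mul_of_nonneg_right (hA M (by omega)) (sub_nonneg.mpr (hw M hM))
      nlinarith
  have hmono : ∀ M, 1 ≤ M → w 1 ≤ w M := by
    intro M hM
    induction M, hM using Nat.le_induction with
    | base => exact le_refl _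
    | succ M hM ih => exact ih.trans (hw M hM)
  have hwN : 0 ≤ w N := hw1.trans (hmono N hN)
  have h1 := key N hN le_rfl
  have h2 : ‖(∑ n ∈ Icc 1 N, a n) * (w N : ℂ)‖ ≤ T * w N := by
    rw [norm_mul, Complex.norm_real, Real.norm_of_nonneg hwN]
    exact mul_le_mul_of_nonneg_right (hA N le_rfl) hwN
  have e : ∑ n ∈ Icc 1 N, a n * (w n : ℂ) = (∑ n ∈ Icc 1 N, a n * (w n : ℂ) -
      (∑ n ∈ Icc 1 N, a n) * (w N : ℂ)) + (∑ n ∈ Icc 1 N, a n) * (w N : ℂ) := by ring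
  rw [e]
  refine le_trans (norm_add_le _ _) ?_
  nlinarith [hmono N hN, mul_nonneg hw1 hT]

theorem RDB_int {c : ℝ} (hc : 0 < c) :
    IntegrableOn (fun u : ℝ => u ^ (-1 - c)) (Set.Ioi 1) ∧
      ∫ u : ℝ in Set.Ioi 1, u ^ (-1 - c) = 1 / c := by
  refine ⟨integrableOn_Ioi_rpow_of_lt (by linarith) one_pos, ?_⟩
  rw [integral_Ioi_rpow_of_lt (by linarith) one_pos, Real.one_rpow]
  have : -1 - c + 1 = -c := by ring
  rw [this]
  field_simp

/-- The bound for a Dirichlet series on the real line, from two bounds for the partial sums. -/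
theorem RDB_series (j : ℕ) (a : ℕ → ℂ)
    (ha : ∀ n : ℕ, 1 ≤ n → ∑ k ∈ Icc 1 n, ‖a k‖ ≤ n * (1 + Real.log n)) (L D S σ c₁ c₂ A : ℝ)
    (hL : 1 ≤ L) (hD : 1 ≤ D) (hDL : D ≤ L) (hS : 0 ≤ S) (hc₁ : 0 ≤ c₁) (hc₂ : 0 ≤ c₂)
    (hSL : L ^ 9 ≤ Real.exp (S / 2)) (hA0 : 0 ≤ A) (hA : A * L ^ (j + 1) ≤ 1)
    (hσ : 1 + 1 / L ≤ σ) (hσ2 : σ ≤ 2)
    (h1 : ∀ m : ℕ, 1 ≤ m → (m : ℝ) ≤ Real.exp (S * D) → ‖∑ n ∈ Icc 1 m, a n‖ ≤ 1 + c₁ * m / D)
    (h2 : ∀ m : ℕ, 1 ≤ m → ‖∑ n ∈ Icc 1 m, a n‖ ≤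
      c₂ * m * (L ^ 8 * Real.exp (-(Real.log m / D)) + A)) :
    ‖LSeries (fun n => a n * (Real.log n : ℂ) ^ j) (σ : ℂ)‖ ≤
      4 * (j.factorial * 2 ^ (j + 1) + c₁ * D ^ j * S ^ (j + 1) +
        c₂ * (j.factorial * 4 ^ (j + 1) * D ^ j) + c₂ * (j.factorial * 2 ^ (j + 1))) := by
  have hσ1 : 1 < σ := by
    have : 0 < 1 / L := by positivity
    linarith
  have hD0 : 0 < D := by linarith
  have hL0 : 0 < L := by linarith
  -- bound for the partial sums with logarithms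
  have hlogmono : ∀ m : ℕ, 1 ≤ m → Real.log m ^ j ≤ Real.log ((m + 1 : ℕ) : ℝ) ^ j := by
    intro m hm
    have hm' : (1 : ℝ) ≤ m := by exact_mod_cast hm
    have : Real.log m ≤ Real.log ((m + 1 : ℕ) : ℝ) :=
      Real.log_le_log (by linarith) (by push_cast; linarith)
    exact pow_le_pow_left₀ (Real.log_nonneg hm') this j
  have hlog1 : (0 : ℝ) ≤ Real.log ((1 : ℕ) : ℝ) ^ j := by
    rw [Nat.cast_one, Real.log_one]; positivity
  have hF : ∀ (N : ℕ) (T : ℝ), 1 ≤ N → 0 ≤ T → (∀ m ≤ N, ‖∑ n ∈ Icc 1 m, a n‖ ≤ T) →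
      ‖∑ n ∈ Icc 1 N, a n * (Real.log n : ℂ) ^ j‖ ≤ 2 * Real.log N ^ j * T := by
    intro N T hN hT hm
    have h := RDB_abel a (fun n => Real.log n ^ j) T hlogmono hlog1 hT N hN hm
    simpa using h
  have hFl : ∀ u : ℝ, 1 < u → ∀ T : ℝ, 0 ≤ T → (∀ m ≤ ⌊u⌋₊, ‖∑ n ∈ Icc 1 m, a n‖ ≤ T) →
      ‖∑ n ∈ Icc 1 ⌊u⌋₊, a n * (Real.log n : ℂ) ^ j‖ ≤ 2 * Real.log u ^ j * T := by
    intro u hu T hT hm
    have hfl : 1 ≤ ⌊u⌋₊ := Nat.le_floor (by rw [Nat.cast_one]; exact hu.le)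
    have hfl' : (1 : ℝ) ≤ ⌊u⌋₊ := by exact_mod_cast hfl
    refine le_trans (hF ⌊u⌋₊ T hfl hT hm) ?_
    have h3 : Real.log (⌊u⌋₊ : ℝ) ≤ Real.log u :=
      Real.log_le_log (by linarith) (Nat.floor_le (by linarith))
    have h4 : Real.log (⌊u⌋₊ : ℝ) ^ j ≤ Real.log u ^ j :=
      pow_le_pow_left₀ (Real.log_nonneg hfl') h3 j
    gcongr
  have hmle : ∀ (u : ℝ) (m : ℕ), 1 < u → m ≤ ⌊u⌋₊ → (m : ℝ) ≤ u := by
    intro u m hu hm
    exact le_trans (by exact_mod_cast hm) (Nat.floor_le (by linarith))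
  have hB1 : ∀ u : ℝ, 1 < u → u ≤ Real.exp (S * D) → ‖∑ n ∈ Icc 1 ⌊u⌋₊, a n * (Real.log n : ℂ) ^ j‖ ≤
      2 * Real.log u ^ j * (1 + c₁ * u / D) := by
    intro u hu hU
    refine hFl u hu _ (by positivity) fun m hm => ?_
    rcases Nat.eq_zero_or_pos m with rfl | hm0
    · simp only [Finset.Icc_eq_empty_of_lt (Nat.zero_lt_one), Finset.sum_empty, norm_zero]
      positivity
    · refine le_trans (h1 m hm0 ((hmle u m hu hm).trans hU)) ?_
      have := hmle u m hu hm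
      gcongr
  have hB2 : ∀ u : ℝ, 1 < u → ‖∑ n ∈ Icc 1 ⌊u⌋₊, a n * (Real.log n : ℂ) ^ j‖ ≤
      2 * Real.log u ^ j * (c₂ * (L ^ 8 * u ^ (1 - 1 / D) + A * u)) := by
    intro u hu
    have hu0 : 0 < u := by linarith
    refine hFl u hu _ (by positivity) fun m hm => ?_
    rcases Nat.eq_zero_or_pos m with rfl | hm0
    · simp only [Finset.Icc_eq_empty_of_lt (Nat.zero_lt_one), Finset.sum_empty, norm_zero]
      positivity
    · refine le_trans (h2 m hm0) ?_
      have hmu := hmle u m hu hm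
      have hm1 : (1 : ℝ) ≤ m := by exact_mod_cast hm0
      have hm00 : (0 : ℝ) < m := by linarith
      have e1 : (m : ℝ) * Real.exp (-(Real.log m / D)) = (m : ℝ) ^ (1 - 1 / D) := by
        rw [Real.rpow_sub hm00, Real.rpow_one, Real.exp_neg, div_eq_mul_inv]
        congr 2
        rw [Real.rpow_def_of_pos hm00]
        congr 1
        ring
      have e2 : (m : ℝ) ^ (1 - 1 / D) ≤ u ^ (1 - 1 / D) := by
        apply Real.rpow_le_rpow hm00.le hmu
        rw [sub_nonneg, div_le_one hD0]; exact hD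
      calc c₂ * m * (L ^ 8 * Real.exp (-(Real.log m / D)) + A)
          = c₂ * (L ^ 8 * ((m : ℝ) * Real.exp (-(Real.log m / D))) + A * m) := by ring
        _ ≤ c₂ * (L ^ 8 * u ^ (1 - 1 / D) + A * u) := by
          rw [e1]; gcongr
  -- the integral representation
  set r : ℝ := (1 + σ) / 2 with hr
  have hr1 : 1 < r := by rw [hr]; linarith
  have hrσ : r < σ := by rw [hr]; linarith
  have hO : (fun n : ℕ => ∑ k ∈ Icc 1 n, ‖a k * (Real.log k : ℂ) ^ j‖)
      =O[Filter.atTop] fun n : ℕ => (n : ℝ) ^ r := by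
    refine Asymptotics.IsBigO.of_bound (j.factorial * (1 / (r - 1)) ^ j +
      (j + 1).factorial * (1 / (r - 1)) ^ (j + 1)) ?_
    filter_upwards [Filter.eventually_ge_atTop 1] with n hn
    have hn' : (1 : ℝ) ≤ n := by exact_mod_cast hn
    rw [Real.norm_of_nonneg (Finset.sum_nonneg fun _ _ => norm_nonneg _),
      Real.norm_of_nonneg (by positivity)]
    have hterm : ∀ k ∈ Icc 1 n, ‖a k * (Real.log k : ℂ) ^ j‖ ≤ Real.log n ^ j * ‖a k‖ := by
      intro k hk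
      rw [Finset.mem_Icc] at hk
      have hk1 : (1 : ℝ) ≤ k := by exact_mod_cast hk.1
      have hkn : (k : ℝ) ≤ n := by exact_mod_cast hk.2
      rw [norm_mul, norm_pow, Complex.norm_real, Real.norm_of_nonneg (Real.log_nonneg hk1), mul_comm]
      refine mul_le_mul_of_nonneg_right ?_ (norm_nonneg _)
      exact pow_le_pow_left₀ (Real.log_nonneg hk1) (Real.log_le_log (by linarith) hkn) j
    refine le_trans (Finset.sum_le_sum hterm) ?_
    rw [← Finset.mul_sum]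
    have hln : 0 ≤ Real.log n := Real.log_nonneg hn'
    have e3 : (n : ℝ) ^ r = n * (n : ℝ) ^ (r - 1) := by
      rw [Real.rpow_sub_one (by linarith)]; field_simp
    have q1 := RDB_log_pow j (c := r - 1) (by linarith) hn'
    have q2 := RDB_log_pow (j + 1) (c := r - 1) (by linarith) hn'
    calc Real.log n ^ j * ∑ k ∈ Icc 1 n, ‖a k‖ ≤ Real.log n ^ j * (n * (1 + Real.log n)) :=
          mul_le_mul_of_nonneg_left (ha n hn) (by positivity)
      _ = n * (Real.log n ^ j + Real.log n ^ (j + 1)) := by ring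
      _ ≤ n * (j.factorial * (1 / (r - 1)) ^ j * (n : ℝ) ^ (r - 1) +
            (j + 1).factorial * (1 / (r - 1)) ^ (j + 1) * (n : ℝ) ^ (r - 1)) :=
          mul_le_mul_of_nonneg_left (add_le_add q1 q2) (by linarith)
      _ = _ := by rw [e3]; ring
  have hrep := LSeries_eq_mul_integral' (fun n => a n * (Real.log n : ℂ) ^ j) (r := r)
    (by linarith) (s := (σ : ℂ)) (by rw [Complex.ofReal_re]; exact hrσ) hO
  rw [hrep, norm_mul, Complex.norm_real, Real.norm_of_nonneg (by linarith)]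
  -- the dominating function
  set g : ℝ → ℝ := fun u =>
    2 * (j.factorial * 2 ^ j) * u ^ (-1 - (1 / 2 : ℝ)) +
    Set.indicator (Set.Iic (Real.exp (S * D))) (fun u => 2 * (c₁ / D * (S * D) ^ j) * u⁻¹) u +
    2 * (c₂ * (1 / L * (j.factorial * (4 * D) ^ j))) * u ^ (-1 - 1 / (4 * D)) +
    2 * (c₂ * (A * (j.factorial * (2 * L) ^ j))) * u ^ (-1 - 1 / (2 * L)) with hg
  have hi1 := RDB_int (c := 1 / 2) (by norm_num)
  have hi3 := RDB_int (c := 1 / (4 * D)) (by positivity)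
  have hi4 := RDB_int (c := 1 / (2 * L)) (by positivity)
  have hexp1 : (1 : ℝ) ≤ Real.exp (S * D) := Real.one_le_exp (by positivity)
  have hi2 : IntegrableOn (Set.indicator (Set.Iic (Real.exp (S * D)))
      (fun u : ℝ => 2 * (c₁ / D * (S * D) ^ j) * u⁻¹)) (Set.Ioi 1) ∧
      ∫ u in Set.Ioi (1 : ℝ), Set.indicator (Set.Iic (Real.exp (S * D)))
        (fun u : ℝ => 2 * (c₁ / D * (S * D) ^ j) * u⁻¹) u = 2 * (c₁ / D * (S * D) ^ j) * (S * D) := by
    have hinter : Set.Ioi (1 : ℝ) ∩ Set.Iic (Real.exp (S * D)) = Set.Ioc 1 (Real.exp (S * D)) := by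
      ext u; simp
    have hii : IntegrableOn (fun u : ℝ => u⁻¹) (Set.Ioc 1 (Real.exp (S * D))) := by
      rw [← intervalIntegrable_iff_integrableOn_Ioc_of_le hexp1]
      apply intervalIntegral.intervalIntegrable_inv
      · intro u hu
        rw [Set.uIcc_of_le hexp1] at hu
        have := hu.1
        positivity
      · exact continuousOn_id
    constructor
    · rw [IntegrableOn, integrable_indicator_iff measurableSet_Iic, IntegrableOn,
        Measure.restrict_restrict measurableSet_Iic, Set.inter_comm, hinter]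
      exact hii.const_mul _
    · rw [setIntegral_indicator measurableSet_Iic, hinter, integral_const_mul]
      congr 1
      rw [← intervalIntegral.integral_of_le hexp1, integral_inv_of_pos one_pos (Real.exp_pos _),
        div_one, Real.log_exp]
  have hgi : IntegrableOn g (Set.Ioi 1) := by
    rw [hg]
    exact (((hi1.1.const_mul _).add hi2.1).add (hi3.1.const_mul _)).add (hi4.1.const_mul _)
  have hgint : ∫ u in Set.Ioi (1 : ℝ), g u = 2 * (j.factorial * 2 ^ j) * 2 +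
      2 * (c₁ / D * (S * D) ^ j) * (S * D) +
      2 * (c₂ * (1 / L * (j.factorial * (4 * D) ^ j))) * (4 * D) +
      2 * (c₂ * (A * (j.factorial * (2 * L) ^ j))) * (2 * L) := by
    have j1 : Integrable (fun u : ℝ => 2 * ((j.factorial : ℝ) * 2 ^ j) * u ^ (-1 - (1 / 2 : ℝ)))
        (volume.restrict (Set.Ioi 1)) := hi1.1.const_mul _
    have j3 : Integrable (fun u : ℝ => 2 * (c₂ * (1 / L * ((j.factorial : ℝ) * (4 * D) ^ j))) *
        u ^ (-1 - 1 / (4 * D))) (volume.restrict (Set.Ioi 1)) := hi3.1.const_mul _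
    have j4 : Integrable (fun u : ℝ => 2 * (c₂ * (A * ((j.factorial : ℝ) * (2 * L) ^ j))) *
        u ^ (-1 - 1 / (2 * L))) (volume.restrict (Set.Ioi 1)) := hi4.1.const_mul _
    have j12 : Integrable (fun u : ℝ => 2 * ((j.factorial : ℝ) * 2 ^ j) * u ^ (-1 - (1 / 2 : ℝ)) +
        Set.indicator (Set.Iic (Real.exp (S * D))) (fun u => 2 * (c₁ / D * (S * D) ^ j) * u⁻¹) u)
        (volume.restrict (Set.Ioi 1)) := j1.add hi2.1
    have j123 : Integrable (fun u : ℝ => 2 * ((j.factorial : ℝ) * 2 ^ j) * u ^ (-1 - (1 / 2 : ℝ)) +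
        Set.indicator (Set.Iic (Real.exp (S * D))) (fun u => 2 * (c₁ / D * (S * D) ^ j) * u⁻¹) u +
        2 * (c₂ * (1 / L * ((j.factorial : ℝ) * (4 * D) ^ j))) * u ^ (-1 - 1 / (4 * D)))
        (volume.restrict (Set.Ioi 1)) := j12.add j3
    simp only [hg]
    rw [integral_add j123 j4, integral_add j12 j3, integral_add j1 hi2.1, hi2.2]
    rw [integral_const_mul, integral_const_mul, integral_const_mul, hi1.2, hi3.2, hi4.2,
      one_div_one_div, one_div_one_div, one_div_one_div]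
  have hpt : ∀ u ∈ Set.Ioi (1 : ℝ),
      ‖(∑ k ∈ Icc 1 ⌊u⌋₊, a k * (Real.log k : ℂ) ^ j) * (u : ℂ) ^ (-((σ : ℂ) + 1))‖ ≤ g u := by
    intro u hu
    have hu1 : 1 < u := hu
    have hu0 : 0 < u := by linarith
    have hpow : ‖(u : ℂ) ^ (-((σ : ℂ) + 1))‖ = u ^ (-(σ + 1)) := by
      have : (-((σ : ℂ) + 1)) = ((-(σ + 1) : ℝ) : ℂ) := by push_cast; ring
      rw [this, Complex.norm_cpow_eq_rpow_re_of_pos hu0, Complex.ofReal_re]
    rw [norm_mul, hpow]
    have hlog0 : 0 ≤ Real.log u := Real.log_nonneg hu1.le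
    have hp0 : 0 ≤ u ^ (-(σ + 1)) := Real.rpow_nonneg hu0.le _
    have g1 : 0 ≤ 2 * ((j.factorial : ℝ) * 2 ^ j) * u ^ (-1 - (1 / 2 : ℝ)) := by positivity
    have g3 : 0 ≤ 2 * (c₂ * (1 / L * ((j.factorial : ℝ) * (4 * D) ^ j))) * u ^ (-1 - 1 / (4 * D)) := by
      positivity
    have g4 : 0 ≤ 2 * (c₂ * (A * ((j.factorial : ℝ) * (2 * L) ^ j))) * u ^ (-1 - 1 / (2 * L)) := by
      positivity
    by_cases hU : u ≤ Real.exp (S * D)
    · -- small u
      have hgu : g u = 2 * (j.factorial * 2 ^ j) * u ^ (-1 - (1 / 2 : ℝ)) +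
          2 * (c₁ / D * (S * D) ^ j) * u⁻¹ +
          2 * (c₂ * (1 / L * (j.factorial * (4 * D) ^ j))) * u ^ (-1 - 1 / (4 * D)) +
          2 * (c₂ * (A * (j.factorial * (2 * L) ^ j))) * u ^ (-1 - 1 / (2 * L)) := by
        rw [hg]
        simp only [Set.indicator, Set.mem_Iic, if_pos hU]
      rw [hgu]
      have e1 : u ^ (-(σ + 1)) ≤ u ^ (-2 : ℝ) :=
        Real.rpow_le_rpow_of_exponent_le hu1.le (by linarith)
      have e2 : Real.log u ^ j * u ^ (-2 : ℝ) ≤ (j.factorial * 2 ^ j) * u ^ (-1 - (1 / 2 : ℝ)) := by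
        have h5 := RDB_log_pow j (c := 1 / 2) (by norm_num) hu1.le
        have h6 : (1 / (1 / 2 : ℝ)) ^ j = 2 ^ j := by norm_num
        rw [h6] at h5
        calc Real.log u ^ j * u ^ (-2 : ℝ) ≤ (j.factorial * 2 ^ j * u ^ (1 / 2 : ℝ)) * u ^ (-2 : ℝ) :=
              mul_le_mul_of_nonneg_right h5 (Real.rpow_nonneg hu0.le _)
          _ = (j.factorial * 2 ^ j) * (u ^ (1 / 2 : ℝ) * u ^ (-2 : ℝ)) := by ring
          _ = _ := by rw [← Real.rpow_add hu0]; norm_num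
      have e3 : Real.log u ^ j ≤ (S * D) ^ j := by
        refine pow_le_pow_left₀ hlog0 ?_ j
        rw [Real.log_le_iff_le_exp hu0]; exact hU
      have e4 : u * u ^ (-2 : ℝ) = u⁻¹ := by
        rw [← Real.rpow_one_add' hu0.le (by norm_num)]
        norm_num
        rw [Real.rpow_neg_one]
      calc ‖∑ k ∈ Icc 1 ⌊u⌋₊, a k * (Real.log k : ℂ) ^ j‖ * u ^ (-(σ + 1))
          ≤ (2 * Real.log u ^ j * (1 + c₁ * u / D)) * u ^ (-2 : ℝ) :=
            mul_le_mul (hB1 u hu1 hU) e1 hp0 (by positivity)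
        _ = 2 * (Real.log u ^ j * u ^ (-2 : ℝ)) +
            2 * (c₁ / D * Real.log u ^ j) * (u * u ^ (-2 : ℝ)) := by ring
        _ ≤ 2 * ((j.factorial * 2 ^ j) * u ^ (-1 - (1 / 2 : ℝ))) +
            2 * (c₁ / D * (S * D) ^ j) * u⁻¹ := by
          rw [e4]
          have : 0 ≤ c₁ / D := by positivity
          have : 0 ≤ u⁻¹ := by positivity
          gcongr
        _ ≤ _ := by linarith
    · -- large u
      rw [not_le] at hU
      have hgu : g u = 2 * (j.factorial * 2 ^ j) * u ^ (-1 - (1 / 2 : ℝ)) + 0 +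
          2 * (c₂ * (1 / L * (j.factorial * (4 * D) ^ j))) * u ^ (-1 - 1 / (4 * D)) +
          2 * (c₂ * (A * (j.factorial * (2 * L) ^ j))) * u ^ (-1 - 1 / (2 * L)) := by
        rw [hg]
        simp only [Set.indicator, Set.mem_Iic, if_neg (not_le.mpr hU)]
      rw [hgu]
      have e1 : u ^ (-(σ + 1)) ≤ u ^ (-2 - 1 / L) :=
        Real.rpow_le_rpow_of_exponent_le hu1.le (by linarith)
      -- first term
      have f1 : L ^ 8 * (u ^ (1 - 1 / D) * u ^ (-2 - 1 / L)) * Real.log u ^ j ≤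
          1 / L * (j.factorial * (4 * D) ^ j) * u ^ (-1 - 1 / (4 * D)) := by
        have k1 : u ^ (1 - 1 / D) * u ^ (-2 - 1 / L) ≤ u ^ (-1 - 1 / D) := by
          rw [← Real.rpow_add hu0]
          apply Real.rpow_le_rpow_of_exponent_le hu1.le
          have : 0 < 1 / L := by positivity
          linarith
        have k2 : u ^ (-1 - 1 / D) = u ^ (-(1 / (2 * D))) * u ^ (-(1 / (4 * D))) *
            u ^ (-1 - 1 / (4 * D)) := by
          rw [← Real.rpow_add hu0, ← Real.rpow_add hu0]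
          congr 1
          field_simp
          ring
        have k3 : u ^ (-(1 / (2 * D))) ≤ 1 / L ^ 9 := by
          have k4 : Real.exp (S / 2) ≤ u ^ (1 / (2 * D)) := by
            rw [Real.rpow_def_of_pos hu0]
            apply Real.exp_le_exp.mpr
            have k5 : S * D ≤ Real.log u := by
              rw [Real.le_log_iff_exp_le hu0]; exact hU.le
            calc S / 2 = (S * D) * (1 / (2 * D)) := by field_simp
              _ ≤ _ := mul_le_mul_of_nonneg_right k5 (by positivity)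
          rw [Real.rpow_neg hu0.le, one_div (L ^ 9)]
          exact inv_anti₀ (by positivity) (hSL.trans k4)
        have k6 : Real.log u ^ j * u ^ (-(1 / (4 * D))) ≤ j.factorial * (4 * D) ^ j := by
          have h5 := RDB_log_pow j (c := 1 / (4 * D)) (by positivity) hu1.le
          rw [one_div_one_div] at h5
          calc Real.log u ^ j * u ^ (-(1 / (4 * D)))
              ≤ (j.factorial * (4 * D) ^ j * u ^ (1 / (4 * D))) * u ^ (-(1 / (4 * D))) :=
                mul_le_mul_of_nonneg_right h5 (Real.rpow_nonneg hu0.le _)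
            _ = (j.factorial * (4 * D) ^ j) * (u ^ (1 / (4 * D)) * u ^ (-(1 / (4 * D)))) := by ring
            _ = _ := by rw [← Real.rpow_add hu0, add_neg_cancel, Real.rpow_zero, mul_one]
        have k7 : 0 ≤ u ^ (-1 - 1 / (4 * D)) := Real.rpow_nonneg hu0.le _
        calc L ^ 8 * (u ^ (1 - 1 / D) * u ^ (-2 - 1 / L)) * Real.log u ^ j
            ≤ L ^ 8 * (u ^ (-(1 / (2 * D))) * u ^ (-(1 / (4 * D))) *
                u ^ (-1 - 1 / (4 * D))) * Real.log u ^ j := by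
              rw [← k2]; gcongr
          _ = L ^ 8 * u ^ (-(1 / (2 * D))) * (Real.log u ^ j * u ^ (-(1 / (4 * D)))) *
                u ^ (-1 - 1 / (4 * D)) := by ring
          _ ≤ L ^ 8 * (1 / L ^ 9) * (j.factorial * (4 * D) ^ j) * u ^ (-1 - 1 / (4 * D)) := by
              gcongr
          _ = _ := by
              have : L ^ 8 * (1 / L ^ 9) = 1 / L := by field_simp
              rw [this]
      have f2 : (u * u ^ (-2 - 1 / L)) * Real.log u ^ j ≤
          (j.factorial * (2 * L) ^ j) * u ^ (-1 - 1 / (2 * L)) := by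
        have k1 : u * u ^ (-2 - 1 / L) = u ^ (-(1 / (2 * L))) * u ^ (-1 - 1 / (2 * L)) := by
          rw [← Real.rpow_add hu0, ← Real.rpow_one_add' hu0.le]
          · congr 1
            field_simp
            ring
          · have : 0 < 1 / L := by positivity
            linarith
        have k6 : Real.log u ^ j * u ^ (-(1 / (2 * L))) ≤ j.factorial * (2 * L) ^ j := by
          have h5 := RDB_log_pow j (c := 1 / (2 * L)) (by positivity) hu1.le
          rw [one_div_one_div] at h5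
          calc Real.log u ^ j * u ^ (-(1 / (2 * L)))
              ≤ (j.factorial * (2 * L) ^ j * u ^ (1 / (2 * L))) * u ^ (-(1 / (2 * L))) :=
                mul_le_mul_of_nonneg_right h5 (Real.rpow_nonneg hu0.le _)
            _ = (j.factorial * (2 * L) ^ j) * (u ^ (1 / (2 * L)) * u ^ (-(1 / (2 * L)))) := by ring
            _ = _ := by rw [← Real.rpow_add hu0, add_neg_cancel, Real.rpow_zero, mul_one]
        rw [k1]
        calc u ^ (-(1 / (2 * L))) * u ^ (-1 - 1 / (2 * L)) * Real.log u ^ j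
            = (Real.log u ^ j * u ^ (-(1 / (2 * L)))) * u ^ (-1 - 1 / (2 * L)) := by ring
          _ ≤ _ := mul_le_mul_of_nonneg_right k6 (Real.rpow_nonneg hu0.le _)
      calc ‖∑ k ∈ Icc 1 ⌊u⌋₊, a k * (Real.log k : ℂ) ^ j‖ * u ^ (-(σ + 1))
          ≤ (2 * Real.log u ^ j * (c₂ * (L ^ 8 * u ^ (1 - 1 / D) + A * u))) * u ^ (-2 - 1 / L) :=
            mul_le_mul (hB2 u hu1) e1 hp0 (by positivity)
        _ = 2 * (c₂ * (L ^ 8 * (u ^ (1 - 1 / D) * u ^ (-2 - 1 / L)) * Real.log u ^ j)) +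
            2 * (c₂ * (A * ((u * u ^ (-2 - 1 / L)) * Real.log u ^ j))) := by ring
        _ ≤ 2 * (c₂ * (1 / L * (j.factorial * (4 * D) ^ j) * u ^ (-1 - 1 / (4 * D)))) +
            2 * (c₂ * (A * ((j.factorial * (2 * L) ^ j) * u ^ (-1 - 1 / (2 * L))))) := by
          gcongr
        _ ≤ _ := by linarith
  have hint := norm_integral_le_of_norm_le hgi
    ((ae_restrict_iff' measurableSet_Ioi).mpr (Filter.Eventually.of_forall hpt))
  rw [hgint] at hint
  have hfin : 2 * (j.factorial * 2 ^ j) * 2 + 2 * (c₁ / D * (S * D) ^ j) * (S * D) +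
      2 * (c₂ * (1 / L * (j.factorial * (4 * D) ^ j))) * (4 * D) +
      2 * (c₂ * (A * (j.factorial * (2 * L) ^ j))) * (2 * L) ≤
      2 * (j.factorial * 2 ^ (j + 1) + c₁ * D ^ j * S ^ (j + 1) +
        c₂ * (j.factorial * 4 ^ (j + 1) * D ^ j) + c₂ * (j.factorial * 2 ^ (j + 1))) := by
    have q1 : c₁ / D * (S * D) ^ j * (S * D) = c₁ * D ^ j * S ^ (j + 1) := by
      rw [mul_pow]; field_simp; ring
    have q2 : 1 / L * (j.factorial * (4 * D) ^ j) * (4 * D) ≤ j.factorial * 4 ^ (j + 1) * D ^ j := by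
      have : 1 / L * ((j.factorial : ℝ) * (4 * D) ^ j) * (4 * D)
          = (j.factorial * 4 ^ (j + 1) * D ^ j) * (D / L) := by
        rw [mul_pow]; ring
      rw [this]
      exact mul_le_of_le_one_right (by positivity) ((div_le_one hL0).mpr hDL)
    have q3 : A * (j.factorial * (2 * L) ^ j) * (2 * L) ≤ j.factorial * 2 ^ (j + 1) := by
      have : A * ((j.factorial : ℝ) * (2 * L) ^ j) * (2 * L)
          = (j.factorial * 2 ^ (j + 1)) * (A * L ^ (j + 1)) := by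
        rw [mul_pow]; ring
      rw [this]
      exact mul_le_of_le_one_right (by positivity) hA
    have q4 := mul_le_mul_of_nonneg_left q2 hc₂
    have q5 := mul_le_mul_of_nonneg_left q3 hc₂
    have q0 : (j.factorial : ℝ) * 2 ^ (j + 1) = (j.factorial * 2 ^ j) * 2 := by ring
    nlinarith
  calc σ * ‖∫ t : ℝ in Set.Ioi (1 : ℝ), (∑ k ∈ Icc 1 ⌊t⌋₊, a k * (Real.log k : ℂ) ^ j) *
        (t : ℂ) ^ (-((σ : ℂ) + 1))‖
      ≤ 2 * (2 * (j.factorial * 2 ^ (j + 1) + c₁ * D ^ j * S ^ (j + 1) +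
        c₂ * (j.factorial * 4 ^ (j + 1) * D ^ j) + c₂ * (j.factorial * 2 ^ (j + 1)))) :=
        mul_le_mul hσ2 (hint.trans hfin) (norm_nonneg _) (by norm_num)
    _ = _ := by ring



theorem RDB_nit_norm (t x : ℝ) : ‖nit t x‖ = 1 := by
  unfold nit
  exact Complex.norm_exp_ofReal_mul_I _

theorem RDB_rg_norm (y : ℝ) {g : ℕ → ℂ} (hg : CM g) (n : ℕ) : ‖rg y g n‖ ≤ 1 := by
  unfold rg
  split_ifs
  · exact hg.2.2.2 n
  · rw [norm_zero]; exact zero_le_one

theorem RDB_cv_norm {g h : ℕ → ℂ} (hg : ∀ n, ‖g n‖ ≤ 1) (hh : ∀ n, ‖h n‖ ≤ 1) (n : ℕ) :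
    ‖cv g h n‖ ≤ (#n.divisors : ℝ) := by
  unfold cv
  refine (norm_sum_le _ _).trans ?_
  have h1 : ∑ d ∈ n.divisorsAntidiagonal, ‖g d.1 * h d.2‖ ≤ ∑ d ∈ n.divisorsAntidiagonal, (1 : ℝ) := by
    refine sum_le_sum fun d _ => ?_
    rw [norm_mul]
    exact mul_le_one₀ (hg _) (norm_nonneg _) (hh _)
  refine h1.trans (le_of_eq ?_)
  have h2 := Nat.sum_divisorsAntidiagonal (n := n) (fun _ _ => (1 : ℝ))
  rw [h2]
  simp

theorem RDB_cv_zero (y : ℝ) (g h : ℕ → ℂ) (n : ℕ) (hn : ¬ rgh y n) :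
    cv (rg y g) (rg y h) n = 0 := by
  unfold cv
  refine sum_eq_zero fun d hd => ?_
  obtain ⟨hd1, hd2⟩ := Nat.mem_divisorsAntidiagonal.1 hd
  unfold rg
  split_ifs with h1 h2
  · exfalso
    apply hn
    refine ⟨hd2, fun p hp hpn => ?_⟩
    rw [← hd1] at hpn
    rcases (Nat.Prime.dvd_mul hp).1 hpn with h3 | h3
    · exact h1.2 p hp h3
    · exact h2.2 p hp h3
  · rw [mul_zero]
  · rw [zero_mul]
  · rw [zero_mul]

theorem RDB_tau (N : ℕ) (hN : 1 ≤ N) :
    ∑ n ∈ Icc 1 N, (#n.divisors : ℝ) ≤ N * (1 + Real.log N) := by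
  have h0 : Icc 1 N = Ioc 0 N := by
    ext n
    simp only [mem_Icc, mem_Ioc]
    omega
  rw [h0]
  have h1 := ArithmeticFunction.sum_Ioc_sigma0_eq_sum_div N
  have h2 : ∑ n ∈ Ioc 0 N, (#n.divisors : ℝ) = ((∑ n ∈ Ioc 0 N, (N / n) : ℕ) : ℝ) := by
    rw [← h1]
    push_cast
    refine sum_congr rfl fun n _ => ?_
    rw [ArithmeticFunction.sigma_zero_apply]
  rw [h2]
  push_cast
  have h3 : ∑ n ∈ Ioc 0 N, ((N / n : ℕ) : ℝ) ≤ ∑ n ∈ Ioc 0 N, (N : ℝ) * ((n : ℝ)⁻¹) := by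
    refine sum_le_sum fun n _ => ?_
    rw [← div_eq_mul_inv]
    exact Nat.cast_div_le
  refine h3.trans ?_
  rw [← mul_sum]
  refine mul_le_mul_of_nonneg_left ?_ (by positivity)
  have h4 := harmonic_le_one_add_log N
  have h5 : ((harmonic N : ℚ) : ℝ) = ∑ n ∈ Ioc 0 N, ((n : ℝ)⁻¹) := by
    rw [harmonic_eq_sum_Icc]
    push_cast
    exact sum_congr h0 fun _ _ => rfl
  rw [← h5]
  exact h4

theorem RDB_DF (b : ℕ → ℂ) (j : ℕ) (σ τ : ℝ) :
    DF b j ((σ : ℂ) + τ * Complex.I) =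
      LSeries (fun n => (b n * nit (-τ) n) * (Real.log n : ℂ) ^ j) (σ : ℂ) := by
  unfold DF LSeries
  refine tsum_congr fun n => ?_
  rcases eq_or_ne n 0 with rfl | hn
  · rw [LSeries.term_zero, LSeries.term_zero]
  · rw [LSeries.term_of_ne_zero hn, LSeries.term_of_ne_zero hn]
    have hn0 : (n : ℂ) ≠ 0 := Nat.cast_ne_zero.mpr hn
    have e1 : (n : ℂ) ^ ((σ : ℂ) + τ * Complex.I) = (n : ℂ) ^ (σ : ℂ) * (n : ℂ) ^ ((τ : ℂ) * Complex.I) := by
      rw [← Complex.cpow_add _ _ hn0]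
    have e2 : nit (-τ) (n : ℝ) = ((n : ℂ) ^ ((τ : ℂ) * Complex.I))⁻¹ := by
      unfold nit
      rw [Complex.cpow_def_of_ne_zero hn0, ← Complex.exp_neg, ← Complex.natCast_log]
      congr 1
      push_cast
      ring
    rw [e1, e2]
    rw [div_eq_mul_inv, div_eq_mul_inv, mul_inv]
    ring

theorem RDB (hRTC : RTC_stmt) (hRGB : RGB_stmt) : RDB_stmt := by
  classical
  intro J
  obtain ⟨C₂, x₂, hC₂, hR⟩ := hRGB (J + 2)
  obtain ⟨C₁, hC₁, hRC⟩ := hRTC
  refine ⟨J + 2 + 6, 4 * (J.factorial * 19 ^ (J + 2) * (1 + C₁ + 2 * C₂)),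
    max x₂ (Real.exp (Real.exp 1)), by positivity, ?_⟩
  intro x hx R g h hg hh hH σ τ hσ1 hσ2 hτ j hj
  have hx2 : x₂ ≤ x := (le_max_left _ _).trans hx
  have hxe : Real.exp (Real.exp 1) ≤ x := (le_max_right _ _).trans hx
  have hx0 : 0 < x := (Real.exp_pos _).trans_le hxe
  have hLe : Real.exp 1 ≤ Real.log x := by
    rw [Real.le_log_iff_exp_le hx0]; exact hxe
  have he1 : (2 : ℝ) ≤ Real.exp 1 := by
    have := Real.add_one_le_exp (1 : ℝ); linarith
  have hL : 1 ≤ Real.log x := by linarith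
  have hL0 : 0 < Real.log x := by linarith
  have hℓ : 1 ≤ ll2 x := by
    unfold ll2
    rw [Real.le_log_iff_exp_le hL0]; exact hLe
  have hD : 1 ≤ CH.dl x := by
    unfold CH.dl
    exact Real.one_le_rpow hL (by norm_num)
  have hD0 : 0 < CH.dl x := by linarith
  have hDL : CH.dl x ≤ Real.log x := by
    unfold CH.dl
    calc Real.log x ^ (19 / 20 : ℝ) ≤ Real.log x ^ (1 : ℝ) :=
          Real.rpow_le_rpow_of_exponent_le hL (by norm_num)
      _ = Real.log x := Real.rpow_one _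
  have hyl : Real.log (yx x) = CH.dl x := by
    unfold yx
    rw [Real.log_exp]
  have hy : 2 ≤ yx x := he1.trans (Real.exp_le_exp.mpr hD)
  have hIcc : ∀ m : ℕ, Icc 1 m = Ioc 0 m := by
    intro m; ext n; simp only [Finset.mem_Icc, Finset.mem_Ioc]; omega
  set b : ℕ → ℂ := cv (rg (yx x) g) (rg (yx x) h) with hb
  have hbn : ∀ n, ‖b n * nit (-τ) n‖ ≤ (#n.divisors : ℝ) := by
    intro n
    rw [norm_mul, RDB_nit_norm, mul_one, hb]
    exact RDB_cv_norm (RDB_rg_norm _ hg) (RDB_rg_norm _ hh) n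
  have ha : ∀ n : ℕ, 1 ≤ n → ∑ k ∈ Icc 1 n, ‖b k * nit (-τ) k‖ ≤ n * (1 + Real.log n) := by
    intro n hn
    exact (Finset.sum_le_sum fun k _ => hbn k).trans (RDB_tau n hn)
  have h1 : ∀ m : ℕ, 1 ≤ m → (m : ℝ) ≤ Real.exp (18 * ll2 x * CH.dl x) →
      ‖∑ n ∈ Icc 1 m, b n * nit (-τ) n‖ ≤ 1 + (C₁ * (1 + 18 * ll2 x)) * m / CH.dl x := by
    intro m hm hmS
    have hm' : (1 : ℝ) ≤ m := by exact_mod_cast hm
    have hm0 : (0 : ℝ) < m := by linarith
    have hrc := hRC (yx x) m hy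
    rw [hyl] at hrc
    have hlm : Real.log m ≤ 18 * ll2 x * CH.dl x := by
      rw [Real.log_le_iff_le_exp hm0]; exact hmS
    have hlm2 : Real.log m / CH.dl x ≤ 18 * ll2 x := by
      rw [div_le_iff₀ hD0]; exact hlm
    have h3 : Icc 1 m = insert 1 (Ioc 1 m) := by
      ext n
      simp only [Finset.mem_Icc, Finset.mem_insert, Finset.mem_Ioc]
      omega
    rw [h3, Finset.sum_insert (by simp)]
    refine (norm_add_le _ _).trans (add_le_add ?_ ?_)
    · have h4 := hbn 1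
      simpa using h4
    · refine (norm_sum_le _ _).trans ?_
      have h5 : ∑ n ∈ Ioc 1 m, ‖b n * nit (-τ) n‖ ≤ ∑ n ∈ Ioc 1 m with rgh (yx x) n, (#n.divisors : ℝ) := by
        rw [Finset.sum_filter]
        refine Finset.sum_le_sum fun n _ => ?_
        split_ifs with h6
        · exact hbn n
        · rw [hb, RDB_cv_zero _ g h n h6, zero_mul, norm_zero]
      refine h5.trans (hrc.trans ?_)
      calc C₁ * (m / CH.dl x) * (1 + Real.log m / CH.dl x) ≤ C₁ * (m / CH.dl x) * (1 + 18 * ll2 x) := by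
            gcongr
        _ = _ := by ring
  have h2 : ∀ m : ℕ, 1 ≤ m → ‖∑ n ∈ Icc 1 m, b n * nit (-τ) n‖ ≤
        C₂ * m * (Real.log x ^ 8 * Real.exp (-(Real.log m / CH.dl x)) + 1 / Real.log x ^ (J + 2)) := by
    intro m hm
    rw [hIcc]
    exact hR x hx2 R g h hg hh hH (-τ) (by rw [abs_neg]; exact hτ) m hm
  rw [RDB_DF]
  have h := RDB_series j (fun n => b n * nit (-τ) n) ha (Real.log x) (CH.dl x)
    (18 * ll2 x) σ (C₁ * (1 + 18 * ll2 x)) C₂ (1 / Real.log x ^ (J + 2)) hL hD hDL (by linarith)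
    (by positivity) hC₂.le
    (by
      have : 18 * ll2 x / 2 = Real.log x.log * 9 := by unfold ll2; ring
      rw [this, ← Real.rpow_def_of_pos hL0]
      exact le_of_eq (by norm_cast)) (by positivity)
    (by
      rw [one_div, inv_mul_le_iff₀ (by positivity), mul_one]
      exact pow_le_pow_right₀ hL (by omega)) hσ1 hσ2 h1 h2
  refine le_trans h ?_
  have hDj : 1 ≤ CH.dl x ^ j := one_le_pow₀ hD
  have hℓj : 1 ≤ ll2 x ^ (j + 2) := one_le_pow₀ hℓ
  have hf : (j.factorial : ℝ) ≤ J.factorial := by exact_mod_cast Nat.factorial_le hj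
  have hf1 : (1 : ℝ) ≤ J.factorial := by exact_mod_cast Nat.factorial_pos J
  have h2j : (2 : ℝ) ^ (j + 1) ≤ 19 ^ (J + 2) :=
    (pow_le_pow_left₀ (by norm_num) (by norm_num) _).trans
      (pow_le_pow_right₀ (by norm_num) (by omega))
  have h4j : (4 : ℝ) ^ (j + 1) ≤ 19 ^ (J + 2) :=
    (pow_le_pow_left₀ (by norm_num) (by norm_num) _).trans
      (pow_le_pow_right₀ (by norm_num) (by omega))
  have h19j : (19 : ℝ) ^ (j + 2) ≤ 19 ^ (J + 2) := pow_le_pow_right₀ (by norm_num) (by omega)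
  have hQ : 1 ≤ CH.dl x ^ j * ll2 x ^ (j + 2) := by nlinarith
  set Q := CH.dl x ^ j * ll2 x ^ (j + 2) with hQdef
  have t1 : (j.factorial : ℝ) * 2 ^ (j + 1) ≤ J.factorial * 19 ^ (J + 2) * Q := by
    calc (j.factorial : ℝ) * 2 ^ (j + 1) ≤ J.factorial * 19 ^ (J + 2) := by gcongr
      _ ≤ _ := le_mul_of_one_le_right (by positivity) hQ
  have t2 : C₁ * (1 + 18 * ll2 x) * CH.dl x ^ j * (18 * ll2 x) ^ (j + 1) ≤
      C₁ * (J.factorial * 19 ^ (J + 2) * Q) := by
    have h6 : (1 + 18 * ll2 x) * (18 * ll2 x) ^ (j + 1) ≤ 19 ^ (j + 2) * ll2 x ^ (j + 2) := by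
      calc (1 + 18 * ll2 x) * (18 * ll2 x) ^ (j + 1) ≤ (19 * ll2 x) * (19 * ll2 x) ^ (j + 1) := by
            gcongr
            · linarith
            · norm_num
        _ = _ := by ring
    calc C₁ * (1 + 18 * ll2 x) * CH.dl x ^ j * (18 * ll2 x) ^ (j + 1)
        = C₁ * (CH.dl x ^ j * ((1 + 18 * ll2 x) * (18 * ll2 x) ^ (j + 1))) := by ring
      _ ≤ C₁ * (CH.dl x ^ j * (19 ^ (j + 2) * ll2 x ^ (j + 2))) := by gcongr
      _ = C₁ * (19 ^ (j + 2) * Q) := by rw [hQdef]; ring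
      _ ≤ C₁ * (J.factorial * 19 ^ (J + 2) * Q) := by
        have h7 : (19 : ℝ) ^ (j + 2) ≤ J.factorial * 19 ^ (J + 2) :=
          h19j.trans (le_mul_of_one_le_left (by positivity) hf1)
        gcongr
  have t3 : C₂ * (j.factorial * 4 ^ (j + 1) * CH.dl x ^ j) ≤ C₂ * (J.factorial * 19 ^ (J + 2) * Q) := by
    have h5 : CH.dl x ^ j ≤ Q := by
      rw [hQdef]; exact le_mul_of_one_le_right (by positivity) hℓj
    gcongr
  have t4 : C₂ * (j.factorial * 2 ^ (j + 1)) ≤ C₂ * (J.factorial * 19 ^ (J + 2) * Q) :=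
    mul_le_mul_of_nonneg_left t1 hC₂.le
  have e : 4 * (J.factorial * 19 ^ (J + 2) * (1 + C₁ + 2 * C₂)) * CH.dl x ^ j * ll2 x ^ (j + 2)
      = 4 * (J.factorial * 19 ^ (J + 2) * Q + C₁ * (J.factorial * 19 ^ (J + 2) * Q) +
        C₂ * (J.factorial * 19 ^ (J + 2) * Q) + C₂ * (J.factorial * 19 ^ (J + 2) * Q)) := by
    rw [hQdef]; ring
  rw [e]
  linarith

end Pool.Agent.BP
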